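import Pool.Agent.H896.CT.Quo

/-!
# The ample line bundle on the base
-/

set_option autoImplicit false

namespace Pool.Agent.H896.IG

open MvPolynomial Pool.Agent.T2H08.FB Pool.Agent.W594.SYZ2 Pool.Agent.W594.SYZ2.TQ
  Pool.Agent.TH735.AQ
open Pool.Agent.T2H08 Pool.Agent.H896.IQ

variable {n c n' c' : ℕ} {r : Fin c → ℕ} {Γ : Subgroup (Trans n r)} {ι : Fin c' → Fin c}
  {p : (Fin n → ℂ) →ₗ[ℂ] (Fin n' → ℂ)} {L : LineBundle Γ}
  {H : (Fin n → ℂ) → (Fin n → ℂ) → ℂ} {f : (Fin n → ℂ) → ℂ}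

/-- Sections are bounded in the metric. -/
theorem section_bdd (hΓ : IsIsometryGroup Γ) (hH : IsHermitian H) (hf : Pot L H f) {M : ℕ}
    {s : (Fin n → ℂ) → (Co r → ℂ) → ℂ} (hs : L.IsSection M s) :
    ∃ R : ℝ, ∀ v z, IsUnit' z →
      ‖s v z‖ ^ 2 * Real.exp (-(M * (Real.pi * (H v v).re + 2 * (f v).re))) ≤ R := by
  let φ : (Fin n → ℂ) × (Co r → ℂ) → ℝ := fun p =>
    ‖s p.1 p.2‖ ^ 2 * Real.exp (-(M * (Real.pi * (H p.1 p.1).re + 2 * (f p.1).re)))
  have hφc : Continuous φ := by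
    refine ((hs.holo.continuous.norm).pow 2).mul (Real.continuous_exp.comp (Continuous.neg ?_))
    refine Continuous.mul continuous_const (Continuous.add ?_ ?_)
    · exact continuous_const.mul ((diag_continuous hH).comp continuous_fst)
    · exact continuous_const.mul (Complex.continuous_re.comp (hf.1.continuous.comp continuous_fst))
  have hinv : ∀ g ∈ Γ, ∀ p, φ (act g p) = φ p := by
    intro g hg p
    change ‖s (onV g p.1) (onZ g p.2)‖ ^ 2 * Real.exp (-(M * (Real.pi *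
      (H (onV g p.1) (onV g p.1)).re + 2 * (f (onV g p.1)).re))) = _
    have h1 : ‖L.e g p.1 ^ M‖ ^ 2 = (‖L.e g p.1‖ ^ 2) ^ M := by
      rw [norm_pow, ← pow_mul, ← pow_mul, mul_comm]
    rw [hs.eq g hg, norm_mul, mul_pow, h1, hf.2 g hg, ← Real.exp_nat_mul]
    change _ = ‖s p.1 p.2‖ ^ 2 * Real.exp (-(M * (Real.pi * (H p.1 p.1).re + 2 * (f p.1).re)))
    rw [mul_comm (Real.exp _) (‖s p.1 p.2‖ ^ 2), mul_assoc, ← Real.exp_add]
    congr 2
    ring
  obtain ⟨C, hC⟩ := cobounded (latt (FQ.GA (fac Γ))) (isUQ hΓ).torus.span_top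
  have hK : IsCompact (Metric.closedBall (0 : Fin n → ℂ) C ×ˢ {z : Co r → ℂ | IsUnit' z}) :=
    (isCompact_closedBall _ _).prod isCompact_unit
  obtain ⟨R, hR⟩ := (isBounded_iff_forall_norm_le.1 (hK.image hφc).isBounded)
  refine ⟨R, fun v z hz => ?_⟩
  obtain ⟨b, hb, hbC⟩ := hC v
  obtain ⟨A, hA⟩ := FQ.mem_GA.1 (mem_latt.1 hb)
  obtain ⟨g, hg⟩ : ∃ g : Trans n r, g = ((AffineEquiv.constVAdd ℂ (Fin n → ℂ) b, A) :
    FQ.Grp n r) := ⟨_, rfl⟩
  have h1 : g ∈ Γ ∧ Permutes g 1 := by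
    rw [hg]
    exact hA
  change φ (v, z) ≤ R
  rw [← hinv g h1.1 (v, z)]
  refine (le_abs_self _).trans (hR _ ⟨act g (v, z), ⟨?_, fun j => ?_⟩, rfl⟩)
  · rw [mem_closedBall_zero_iff]
    have h2 : (act g (v, z)).1 = b + v := by rw [hg]; rfl
    rw [h2]
    exact hbC
  · have h2 := h1.2 z j
    exact h2.trans (hz j)

/-- the normalised section -/
noncomputable def nsec (f : (Fin n → ℂ) → ℂ) (M : ℕ) (s : (Fin n → ℂ) → (Co r → ℂ) → ℂ)
    (v : Fin n → ℂ) (z : Co r → ℂ) : ℂ := s v z * Complex.exp (-(M * f v))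

/-- Sections are constant along the kernel. -/
theorem nsec_ker (hΓ : IsIsometryGroup Γ) (hH : IsHermitian H) (hf : Pot L H f) {M : ℕ}
    {s : (Fin n → ℂ) → (Co r → ℂ) → ℂ} (hs : L.IsSection M s) {u : Fin n → ℂ} (hu : u ∈ ker hH)
    (v : Fin n → ℂ) {z : Co r → ℂ} (hz : IsPt z) :
    nsec f M s (v + u) z = nsec f M s v z := by
  obtain ⟨R, hR⟩ := section_bdd hΓ hH hf hs
  have key : ∀ z, IsUnit' z → nsec f M s (v + u) z = nsec f M s v z := by
    intro z hz
    let h : ℂ → ℂ := fun t => nsec f M s (v + t • u) z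
    have hline : Differentiable ℂ fun t : ℂ => v + t • u :=
      (differentiable_id.smul_const u).const_add v
    have hh : Differentiable ℂ h := by
      refine (hs.holo.comp (hline.prodMk (differentiable_const z))).mul ?_
      exact (((hf.1.comp hline).const_mul (M : ℂ)).neg).cexp
    have hn : ∀ t, ‖h t‖ ^ 2 ≤ R * Real.exp (M * Real.pi * (H v v).re) := by
      intro t
      have e1 : (H (v + t • u) (v + t • u)).re = (H v v).re := by
        rw [hH.add_left, h_add_right hH, h_add_right hH]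
        have h1 : H (t • u) v = 0 := (ker hH).smul_mem t hu v
        have h2 : H (t • u) (t • u) = 0 := (ker hH).smul_mem t hu _
        have h3 : H v (t • u) = 0 := h_ker_right hH ((ker hH).smul_mem t hu) v
        rw [h1, h2, h3, add_zero, add_zero, add_zero]
      have hMre : ∀ w : ℂ, ((M : ℂ) * w).re = M * w.re := by
        intro w
        have : ((M : ℕ) : ℂ) = ((M : ℝ) : ℂ) := by push_cast; rfl
        rw [this, Complex.re_ofReal_mul]
      have h1 := hR (v + t • u) z hz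
      rw [e1] at h1
      have h2 : ‖h t‖ ^ 2 = ‖s (v + t • u) z‖ ^ 2 *
          Real.exp (-(M * (Real.pi * (H v v).re + 2 * (f (v + t • u)).re))) *
          Real.exp (M * Real.pi * (H v v).re) := by
        change ‖s (v + t • u) z * Complex.exp (-(M * f (v + t • u)))‖ ^ 2 = _
        rw [norm_mul, mul_pow, Complex.norm_exp, Complex.neg_re, hMre, ← Real.exp_nat_mul,
          mul_assoc, ← Real.exp_add]
        congr 2
        push_cast
        ring
      rw [h2]
      exact mul_le_mul_of_nonneg_right h1 (Real.exp_pos _).le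
    have hb : Bornology.IsBounded (Set.range h) := by
      rw [isBounded_iff_forall_norm_le]
      refine ⟨R * Real.exp (M * Real.pi * (H v v).re) + 1, ?_⟩
      rintro _ ⟨t, rfl⟩
      have h1 := hn t
      nlinarith [norm_nonneg (h t), sq_nonneg (‖h t‖ - 1)]
    have h1 := hh.apply_eq_apply_of_bounded hb 1 0
    change nsec f M s (v + (1 : ℂ) • u) z = nsec f M s (v + (0 : ℂ) • u) z at h1
    rwa [one_smul, zero_smul, add_zero] at h1
  obtain ⟨μ, hμ⟩ := exists_unit hz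
  have h1 := key _ hμ
  unfold nsec at h1 ⊢
  rw [hs.homog, hs.homog, mul_assoc, mul_assoc] at h1
  exact mul_left_cancel₀ (Finset.prod_ne_zero_iff.2 fun j _ => zpow_ne_zero _ (Units.ne_zero _)) h1

/-- Sections do not depend on the coordinates of the factors of degree zero. -/
theorem sec_restrict {M : ℕ} {s : (Fin n → ℂ) → (Co r → ℂ) → ℂ} (hs : L.IsSection M s)
    (hdeg : ∀ j, j ∉ Set.range ι → L.deg j = 0) (v : Fin n → ℂ) {z w : Co r → ℂ}
    (h : restrict ι z = restrict ι w) : s v z = s v w := by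
  classical
  let cut : ℂ → (Co r → ℂ) → Co r → ℂ := fun t z x => (if x.1 ∈ Set.range ι then 1 else t) * z x
  have hcut : ∀ z, Continuous fun t => cut t z := by
    intro z
    refine continuous_pi fun x => ?_
    by_cases hx : x.1 ∈ Set.range ι
    · simp only [cut, hx, if_true]
      exact continuous_const
    · simp only [cut, hx, if_false]
      exact continuous_id.mul continuous_const
  have key : ∀ z, s v (cut 0 z) = s v z := by
    intro z
    have hg : Continuous fun t => s v (cut t z) :=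
      hs.holo.continuous.comp (continuous_const.prodMk (hcut z))
    have h1 : (fun t => s v (cut t z)) = fun _ => s v z := by
      refine Continuous.ext_on (dense_compl_singleton (0 : ℂ)) hg continuous_const ?_
      intro t ht
      have ht0 : t ≠ 0 := ht
      obtain ⟨μ, hμ⟩ : ∃ μ : Fin c → ℂˣ, ∀ j, μ j = if j ∈ Set.range ι then 1 else
        Units.mk0 t ht0 := ⟨_, fun _ => rfl⟩
      have h2 := hs.homog μ v z
      have h3 : mulBy μ z = cut t z := by
        funext x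
        change (μ x.1 : ℂ) * z x = (if x.1 ∈ Set.range ι then 1 else t) * z x
        rw [hμ]
        split_ifs <;> simp
      have h4 : ∏ j, (μ j : ℂ) ^ ((M : ℤ) * L.deg j) = 1 := by
        refine Finset.prod_eq_one fun j _ => ?_
        by_cases hj : j ∈ Set.range ι
        · rw [hμ, if_pos hj, Units.val_one, one_zpow]
        · rw [hdeg j hj, mul_zero, zpow_zero]
      rw [h3, h4, one_mul] at h2
      exact h2
    exact congrFun h1 0
  rw [← key z, ← key w]
  congr 1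
  funext x
  obtain ⟨j, i⟩ := x
  change (if j ∈ Set.range ι then (1 : ℂ) else 0) * z ⟨j, i⟩ =
    (if j ∈ Set.range ι then (1 : ℂ) else 0) * w ⟨j, i⟩
  by_cases hj : j ∈ Set.range ι
  · rw [if_pos hj, one_mul, one_mul]
    obtain ⟨j', rfl⟩ := hj
    exact congrFun h (⟨j', i⟩ : Co (r ∘ ι))
  · rw [if_neg hj, zero_mul, zero_mul]

theorem nsec_eq {M : ℕ} {s : (Fin n → ℂ) → (Co r → ℂ) → ℂ} (hs : L.IsSection M s)
    {g : Trans n r} (hg : g ∈ Γ) (v : Fin n → ℂ) (z : Co r → ℂ) :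
    nsec f M s (onV g v) (onZ g z) = nrm L f g v ^ M * nsec f M s v z := by
  unfold nsec nrm
  rw [hs.eq g hg, mul_pow, ← Complex.exp_nat_mul]
  have h1 : Complex.exp (-((M : ℂ) * f (onV g v))) =
      Complex.exp ((M : ℂ) * (f v - f (onV g v))) * Complex.exp (-((M : ℂ) * f v)) := by
    rw [← Complex.exp_add]
    congr 1
    ring
  rw [h1]
  ring

/-- the data for the line bundle on the base -/
structure BSit (Γ : Subgroup (Trans n r)) (ι : Fin c' → Fin c)
    (p : (Fin n → ℂ) →ₗ[ℂ] (Fin n' → ℂ)) (L : LineBundle Γ)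
    (H : (Fin n → ℂ) → (Fin n → ℂ) → ℂ) (hH : IsHermitian H) (f : (Fin n → ℂ) → ℂ) (M : ℕ) :
    Prop where
  sit : Sit' Γ ι p
  pot : Pot L H f
  nef : IsNefForm H
  kerp : ∀ v, p v = 0 ↔ v ∈ ker hH
  zero : ∀ j, j ∉ Set.range ι → L.deg j = 0
  pos : ∀ j, 0 < L.deg (ι j)
  one_le : 1 ≤ M
  sec : ∀ v z, IsPt z → ∃ s, L.IsSection M s ∧ s v z ≠ 0

variable {hH : IsHermitian H} {M : ℕ}

theorem Permutes.isPt' {g : Trans n r} {π : Equiv.Perm (Fin c)} (hπ : Permutes g π)
    {z : Co r → ℂ} (hz : IsPt z) : IsPt (onZ g z) := by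
  intro j
  by_contra hcon
  push Not at hcon
  have h1 := hπ z (π.symm j)
  have h2 : ∑ i, ‖onZ g z ⟨π (π.symm j), i⟩‖ ^ 2 = ∑ i, ‖onZ g z ⟨j, i⟩‖ ^ 2 := by
    rw [π.apply_symm_apply]
  have h3 : ∑ i, ‖onZ g z ⟨j, i⟩‖ ^ 2 = 0 := Finset.sum_eq_zero fun i _ => by
    rw [hcon i]
    simp
  rw [h2, h3] at h1
  obtain ⟨i, hi⟩ := hz (π.symm j)
  have h4 := (Finset.sum_eq_zero_iff_of_nonneg (fun i _ => sq_nonneg _)).1 h1.symm i
    (Finset.mem_univ _)
  exact hi (norm_eq_zero.1 (pow_eq_zero_iff two_ne_zero |>.1 h4))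

/-- the general comparison -/
theorem BSit.comp (B : BSit Γ ι p L H hH f M) {s : (Fin n → ℂ) → (Co r → ℂ) → ℂ}
    (hs : L.IsSection M s) {g : Trans n r} (hg : g ∈ Γ) {v : Fin n → ℂ} {z : Co r → ℂ}
    (hz : IsPt z) (hv : p (onV g v) = p v) {w : Co r → ℂ}
    (hw : restrict ι (onZ g z) = restrict ι w) :
    nrm L f g v ^ M * nsec f M s v z = nsec f M s v w := by
  obtain ⟨π, hπ⟩ := B.sit.iso.isoF g hg
  rw [← nsec_eq hs hg]
  have h1 : onV g v = v + (onV g v - v) := by abel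
  have h2 : onV g v - v ∈ ker hH := by
    rw [← B.kerp, map_sub, hv, sub_self]
  rw [h1, nsec_ker B.sit.iso hH B.pot hs h2 v (hπ.isPt' hz)]
  unfold nsec
  rw [sec_restrict hs B.zero v hw]

theorem BSit.one (B : BSit Γ ι p L H hH f M) {g : Trans n r} (hg : g ∈ Γ)
    (h1 : Induces p g (1 : Trans n' (r ∘ ι))) (v : Fin n → ℂ) : nrm L f g v ^ M = 1 := by
  have hz : IsPt (fun _ : Co r => (1 : ℂ)) := fun j => ⟨0, one_ne_zero⟩
  obtain ⟨s, hs, hs0⟩ := B.sec v _ hz
  have h2 := B.comp hs hg hz (h1.1 v).symm (w := fun _ => 1) (h1.2 _).symm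
  have h3 : nsec f M s v (fun _ : Co r => (1 : ℂ)) ≠ 0 := mul_ne_zero hs0 (Complex.exp_ne_zero _)
  exact mul_right_cancel₀ h3 (h2.trans (one_mul _).symm)

theorem BSit.well (B : BSit Γ ι p L H hH f M) {g h : Trans n r} (hg : g ∈ Γ) (hh : h ∈ Γ)
    {g' : Trans n' (r ∘ ι)} (h1 : Induces p g g') (h2 : Induces p h g') {v w : Fin n → ℂ}
    (hvw : p v = p w) : nrm L f g v ^ M = nrm L f h w ^ M := by
  have h3 : Induces p (g⁻¹ * h) (1 : Trans n' (r ∘ ι)) := by
    have h4 := h1.inv.mul h2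
    rwa [inv_mul_cancel] at h4
  have hm : g⁻¹ * h ∈ Γ := Γ.mul_mem (Γ.inv_mem hg) hh
  have h4 : nrm L f h w = nrm L f g (onV (g⁻¹ * h) w) * nrm L f (g⁻¹ * h) w := by
    rw [← nrm_mul hg hm, mul_inv_cancel_left]
  have h5 : nrm L f g (onV (g⁻¹ * h) w) = nrm L f g v := by
    have h6 : onV (g⁻¹ * h) w = v + (onV (g⁻¹ * h) w - v) := by abel
    have h7 : onV (g⁻¹ * h) w - v ∈ ker hH := by
      rw [← B.kerp, map_sub, ← h3.1, hvw]
      exact sub_self _
    rw [h6, nrm_add_ker hH B.pot hg v h7]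
  rw [h4, h5, mul_pow, B.one hm h3, mul_one]

theorem Permutes.unique {g : Trans n r} {π τ : Equiv.Perm (Fin c)} (h1 : Permutes g π)
    (h2 : Permutes g τ) : π = τ := by
  classical
  refine Equiv.ext fun j => ?_
  by_contra hne
  have h3 : τ.symm (π j) ≠ j := fun h => hne (by rw [← h, τ.apply_symm_apply, h])
  have h4 := h1 (fun s => if s.1 = j then 1 else 0) j
  have h5 := h2 (fun s => if s.1 = j then 1 else 0) (τ.symm (π j))
  have h6 : ∑ i, ‖onZ g (fun s : Co r => if s.1 = j then (1 : ℂ) else 0)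
      ⟨τ (τ.symm (π j)), i⟩‖ ^ 2 = ∑ i, ‖onZ g (fun s : Co r => if s.1 = j then (1 : ℂ) else 0)
      ⟨π j, i⟩‖ ^ 2 := by
    rw [τ.apply_symm_apply]
  rw [h6, h4] at h5
  have h7 : ∑ i : Fin (r (τ.symm (π j)) + 1), ‖(if (⟨τ.symm (π j), i⟩ : Co r).1 = j then (1 : ℂ)
      else 0)‖ ^ 2 = 0 := by
    refine Finset.sum_eq_zero fun i _ => ?_
    rw [if_neg h3]
    simp
  have h8 : ∑ i : Fin (r j + 1), ‖(if (⟨j, i⟩ : Co r).1 = j then (1 : ℂ) else 0)‖ ^ 2 =
      (r j + 1 : ℝ) := by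
    simp
  rw [h7, h8] at h5
  have h9 : (0 : ℝ) ≤ r j := Nat.cast_nonneg _
  linarith

/-- **The ample line bundle on the base.** -/
noncomputable def bun (B : BSit Γ ι p L H hH f M) (s : (Fin n' → ℂ) →ₗ[ℂ] (Fin n → ℂ))
    (hs : ∀ w, p (s w) = w) : LineBundle (quo Γ ι p) where
  deg := fun j => M * L.deg (ι j)
  e := by
    classical
    exact fun g' v' => if h : g' ∈ quo Γ ι p then nrm L f h.choose (s v') ^ M else 1
  holo := fun g' hg' => by
    simp only [dif_pos hg']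
    have h1 := (B.pot.fac hg'.choose_spec.1).holo
    have h2 : Differentiable ℂ s := by
      have h3 : (s : (Fin n' → ℂ) → (Fin n → ℂ)) = LinearMap.toContinuousLinearMap s := rfl
      rw [h3]
      exact ContinuousLinearMap.differentiable _
    exact (h1.comp h2).pow M
  ne_zero := fun g' hg' v => by
    simp only [dif_pos hg']
    exact pow_ne_zero _ (nrm_ne_zero hg'.choose_spec.1 _)
  mul := fun g' hg' h' hh' v => by
    have hm : g' * h' ∈ quo Γ ι p := (quo Γ ι p).mul_mem hg' hh'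
    simp only [dif_pos hg', dif_pos hh', dif_pos hm]
    obtain ⟨hg, hgg⟩ := hg'.choose_spec
    obtain ⟨hh, hhh⟩ := hh'.choose_spec
    have h1 := B.well hm.choose_spec.1 (Γ.mul_mem hg hh) hm.choose_spec.2 (hgg.mul hhh)
      (v := s v) (w := s v) rfl
    rw [h1, nrm_mul hg hh, mul_pow]
    congr 1
    refine B.well hg hg hgg hgg ?_
    rw [← hhh.1, hs, hs]
  stab := fun g' hg' v' z' μ' hz' h1 h2 => by
    classical
    simp only [dif_pos hg']
    obtain ⟨hg, hgg⟩ := hg'.choose_spec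
    obtain ⟨z, hzd⟩ : ∃ z : Co r → ℂ, z = Function.extend (emb ι) z' 1 := ⟨_, rfl⟩
    have hzr : restrict ι z = z' := funext fun x => by
      rw [hzd]
      exact (emb_injective B.sit.inj).extend_apply z' 1 x
    have hz : IsPt z := by
      intro j
      by_cases hj : j ∈ Set.range ι
      · obtain ⟨j', rfl⟩ := hj
        obtain ⟨i, hi⟩ := hz' j'
        exact ⟨i, by
          have h3 : z ⟨ι j', i⟩ = z' ⟨j', i⟩ := congrFun hzr (⟨j', i⟩ : Co (r ∘ ι))
          rw [h3]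
          exact hi⟩
      · refine ⟨0, ?_⟩
        rw [hzd, Function.extend_apply']
        · exact one_ne_zero
        · rintro ⟨x, hx⟩
          exact hj ⟨x.1, congrArg Sigma.fst hx⟩
    obtain ⟨μ, hμ⟩ : ∃ μ : Fin c → ℂˣ, μ = Function.extend ι μ' 1 := ⟨_, rfl⟩
    have hμι : ∀ j', μ (ι j') = μ' j' := by
      intro j'
      rw [hμ]
      exact B.sit.inj.extend_apply μ' 1 j'
    obtain ⟨t, ht, ht0⟩ := B.sec (s v') z hz
    have hv : p (onV hg'.choose (s v')) = p (s v') := by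
      rw [← hgg.1, hs, h1]
    have hw : restrict ι (onZ hg'.choose z) = restrict ι (mulBy μ z) := by
      rw [← hgg.2, hzr, h2, restrict_mulBy, hzr]
      congr 1
      funext j'
      exact (hμι j').symm
    have h3 := B.comp ht hg hz hv hw
    have h4 : nsec f M t (s v') z ≠ 0 := mul_ne_zero ht0 (Complex.exp_ne_zero _)
    have h5 : nsec f M t (s v') (mulBy μ z) =
        (∏ j, (μ j : ℂ) ^ ((M : ℤ) * L.deg j)) * nsec f M t (s v') z := by
      unfold nsec
      rw [ht.homog, mul_assoc]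
    rw [h5] at h3
    rw [mul_right_cancel₀ h4 h3]
    refine (Fintype.prod_of_injective ι B.sit.inj _ _ (fun j hj => ?_) fun j' => ?_).symm
    · rw [B.zero j hj, mul_zero, zpow_zero]
    · rw [hμι]
  perm := fun g' hg' π' hπ' j' => by
    obtain ⟨g, hg, hgg⟩ := hg'
    obtain ⟨π, hπ⟩ := B.sit.iso.isoF g hg
    let e : Fin c' ≃ Set.range ι := Equiv.ofInjective ι B.sit.inj
    let τ : Equiv.Perm (Set.range ι) := π.subtypePerm fun j => (B.sit.perm g hg π hπ j).symm
    let π'' : Equiv.Perm (Fin c') := e.trans (τ.trans e.symm)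
    have h1 : ∀ j', ι (π'' j') = π (ι j') := by
      intro j'
      have h1 : e (π'' j') = τ (e j') := e.apply_symm_apply _
      exact congrArg Subtype.val h1
    have h2 : Permutes g' π'' := by
      intro z' j'
      obtain ⟨z, rfl⟩ := restrict_surjective B.sit.inj z'
      rw [hgg.2]
      have h3 := hπ z (ι j')
      have h4 : ∑ i, ‖onZ g z ⟨ι (π'' j'), i⟩‖ ^ 2 = ∑ i, ‖onZ g z ⟨π (ι j'), i⟩‖ ^ 2 := by
        rw [h1]
      exact h4.trans h3
    rw [hπ'.unique h2, h1, L.perm g hg π hπ]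

theorem bun_e (B : BSit Γ ι p L H hH f M) (s : (Fin n' → ℂ) →ₗ[ℂ] (Fin n → ℂ))
    (hs : ∀ w, p (s w) = w) {g : Trans n r} (hg : g ∈ Γ) {g' : Trans n' (r ∘ ι)}
    (hgg : Induces p g g') (v : Fin n → ℂ) :
    (bun B s hs).e g' (p v) = nrm L f g v ^ M := by
  classical
  have hg' : g' ∈ quo Γ ι p := ⟨g, hg, hgg⟩
  have h1 : (bun B s hs).e g' (p v) = nrm L f hg'.choose (s (p v)) ^ M := dif_pos hg'
  rw [h1]
  exact B.well hg'.choose_spec.1 hg hg'.choose_spec.2 hgg (hs _)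

theorem bun_pullback (B : BSit Γ ι p L H hH f M) (s : (Fin n' → ℂ) →ₗ[ℂ] (Fin n → ℂ))
    (hs : ∀ w, p (s w) = w) : IsPullback p L M (bun B s hs) := by
  refine ⟨fun j => rfl, B.zero, fun v => M * f v, B.pot.1.const_mul _,
    fun g hg g' _ hgg v => ?_⟩
  rw [bun_e B s hs hg hgg, nrm, mul_pow, ← Complex.exp_nat_mul, mul_assoc, ← Complex.exp_add]
  have h1 : (M : ℂ) * (f v - f (onV g v)) + (M * f (onV g v) - M * f v) = 0 := by ring
  rw [h1, Complex.exp_zero, mul_one]

theorem bun_ample (B : BSit Γ ι p L H hH f M) (s : (Fin n' → ℂ) →ₗ[ℂ] (Fin n → ℂ))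
    (hs : ∀ w, p (s w) = w) : (bun B s hs).IsAmple := by
  have hMr : (0 : ℝ) < M := by
    have := B.one_le
    exact_mod_cast this
  have hMre : ∀ w : ℂ, ((M : ℂ) * w).re = M * w.re := by
    intro w
    have : ((M : ℕ) : ℂ) = ((M : ℝ) : ℂ) := by push_cast; rfl
    rw [this, Complex.re_ofReal_mul]
  refine ⟨fun v w => M * H (s v) (s w), ⟨⟨fun u v w => ?_, fun a v w => ?_, fun v w => ?_⟩,
    fun _ => 0, differentiable_const _, fun g' hg' v' => ?_⟩, fun v hv => ?_, fun j => ?_⟩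
  · rw [map_add, hH.add_left, mul_add]
  · rw [map_smul, hH.smul_left]
    ring
  · rw [map_mul, ← hH.symm, Complex.conj_natCast]
  · obtain ⟨g, hg, hgg⟩ := hg'
    have h1 := bun_e B s hs hg hgg (s v')
    rw [hs] at h1
    have h2 : ‖nrm L f g (s v') ^ M‖ ^ 2 = (‖nrm L f g (s v')‖ ^ 2) ^ M := by
      rw [norm_pow, ← pow_mul, ← pow_mul, mul_comm]
    rw [h1, h2, (B.pot.fac hg).norm, ← Real.exp_nat_mul]
    have h3 : s (onV g' v') - g.1 (s v') ∈ ker hH := by
      rw [← B.kerp, map_sub, hs]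
      have h4 := hgg.1 (s v')
      rw [hs] at h4
      rw [h4]
      exact sub_self _
    have h5 : H (s (onV g' v')) (s (onV g' v')) = H (g.1 (s v')) (g.1 (s v')) := by
      have h6 : s (onV g' v') = g.1 (s v') + (s (onV g' v') - g.1 (s v')) := by abel
      rw [h6, hH.add_left, h_add_right hH, h3 _, h_ker_right hH h3, add_zero, add_zero]
    simp only [h5, hMre, Complex.zero_re]
    congr 1
    ring
  · simp only [hMre]
    refine mul_pos hMr (lt_of_le_of_ne (B.nef _) fun h0 => hv ?_)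
    have h1 : s v ∈ ker hH := fun w => h_isotropic hH B.nef (s v) h0.symm w
    rw [← B.kerp, hs] at h1
    exact h1
  · exact mul_pos (by exact_mod_cast B.one_le) (B.pos j)

end Pool.Agent.H896.IG
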