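import Mathlib.Analysis.SpecialFunctions.Integrals.PosLogEqCircleAverage
import Mathlib.Analysis.Complex.MeanValue

/-!
# Circle averages of logarithms of norms
-/

set_option autoImplicit false

namespace Pool.Agent.H896.CT

open Real

theorem circ_linear (a : ℂ) (R : ℝ) : circleAverage (fun t : ℂ => (t * a).re) 0 R = 0 := by
  have h1 : DiffContOnCl ℂ (fun t : ℂ => t * a) (Metric.ball 0 |R|) :=
    (differentiable_id.mul_const a).diffContOnCl
  have h2 := h1.circleAverage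
  have h3 : CircleIntegrable (fun t : ℂ => t * a) 0 R :=
    (continuous_id.mul continuous_const).continuousOn.circleIntegrable'
  have h4 := Complex.reCLM.circleAverage_comp_comm h3
  rw [h2] at h4
  have h5 : (⇑Complex.reCLM ∘ fun t : ℂ => t * a) = fun t => (t * a).re := rfl
  rw [h5] at h4
  rw [h4]
  change ((0 : ℂ) * a).re = 0
  rw [zero_mul, Complex.zero_re]

theorem circ_log {P : ℝ} {q : ℂ} {R : ℝ} (hP : 0 < P) (hR : 0 < R)
    (hne : ∀ t : ℂ, ‖t‖ = R → (P : ℂ) + t * q ≠ 0) :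
    Real.log P ≤ circleAverage (fun t : ℂ => Real.log ‖(P : ℂ) + t * q‖) 0 R := by
  by_cases hq : q = 0
  · have h1 : (fun t : ℂ => Real.log ‖(P : ℂ) + t * q‖) = fun _ => Real.log P := by
      funext t
      rw [hq, mul_zero, add_zero, Complex.norm_real, Real.norm_eq_abs, abs_of_pos hP]
    rw [h1, circleAverage_const]
  · have hq0 : 0 < ‖q‖ := norm_pos_iff.2 hq
    set a : ℂ := -((P : ℂ) / q) with ha
    have h1 : circleAverage (fun t : ℂ => Real.log ‖(P : ℂ) + t * q‖) 0 R =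
        circleAverage (fun t : ℂ => Real.log ‖q‖ + Real.log ‖t - a‖) 0 R := by
      refine circleAverage_congr_sphere fun t ht => ?_
      have ht' : ‖t‖ = R := by
        rw [mem_sphere_zero_iff_norm, abs_of_pos hR] at ht
        exact ht
      have h2 : (P : ℂ) + t * q = q * (t - a) := by
        rw [ha]
        field_simp
        ring
      have h3 : t - a ≠ 0 := by
        intro h0
        apply hne t ht'
        rw [h2, h0, mul_zero]
      change Real.log ‖(P : ℂ) + t * q‖ = _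
      rw [h2, norm_mul, Real.log_mul hq0.ne' (norm_ne_zero_iff.2 h3)]
    have h4 : CircleIntegrable (fun t : ℂ => Real.log ‖t - a‖) 0 R :=
      MeromorphicOn.circleIntegrable_log_norm (fun _ _ ↦ by fun_prop)
    rw [h1, circleAverage_fun_add (circleIntegrable_const _ _ _) h4, circleAverage_const]
    have h5 : circleAverage (fun t : ℂ => Real.log ‖t - a‖) 0 R =
        Real.log R + log⁺ (R⁻¹ * ‖(0 : ℂ) - a‖) :=
      circleAverage_log_norm_sub_const_eq_log_radius_add_posLog hR.ne'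
    rw [h5]
    have h6 : Real.log (R⁻¹ * ‖(0 : ℂ) - a‖) ≤ log⁺ (R⁻¹ * ‖(0 : ℂ) - a‖) := by
      rw [posLog]
      exact le_max_right _ _
    have h7 : ‖(0 : ℂ) - a‖ = P / ‖q‖ := by
      rw [ha, zero_sub, neg_neg, norm_div, Complex.norm_real, Real.norm_eq_abs, abs_of_pos hP]
    rw [h7] at h6 ⊢
    have h8 : Real.log (R⁻¹ * (P / ‖q‖)) = -Real.log R + (Real.log P - Real.log ‖q‖) := by
      rw [Real.log_mul (inv_ne_zero hR.ne') (by positivity), Real.log_inv,
        Real.log_div hP.ne' hq0.ne']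
    rw [h8] at h6
    linarith

/-- the logarithm of the norm of a vector is subharmonic on lines -/
theorem circ_norm {ι : Type*} [Fintype ι] (z y : ι → ℂ) {R : ℝ} (hR : 0 < R)
    (hz : 0 < ∑ i, ‖z i‖ ^ 2) (hne : ∀ t : ℂ, ‖t‖ = R → ∑ i, ‖z i + t * y i‖ ^ 2 ≠ 0) :
    Real.log (∑ i, ‖z i‖ ^ 2) ≤
      circleAverage (fun t : ℂ => Real.log (∑ i, ‖z i + t * y i‖ ^ 2)) 0 R := by
  set A : ℝ := ∑ i, ‖z i‖ ^ 2 with hA
  set B : ℝ := ∑ i, ‖y i‖ ^ 2 with hB
  set c : ℂ := ∑ i, (starRingEnd ℂ) (z i) * y i with hc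
  have hB0 : 0 ≤ B := Finset.sum_nonneg fun i _ => sq_nonneg _
  have hexp : ∀ t : ℂ, ∑ i, ‖z i + t * y i‖ ^ 2 = A + 2 * (t * c).re + ‖t‖ ^ 2 * B := by
    intro t
    rw [hA, hB, hc, Finset.mul_sum, Complex.re_sum, Finset.mul_sum, Finset.mul_sum,
      ← Finset.sum_add_distrib, ← Finset.sum_add_distrib]
    refine Finset.sum_congr rfl fun i _ => ?_
    rw [← Complex.normSq_eq_norm_sq, ← Complex.normSq_eq_norm_sq, ← Complex.normSq_eq_norm_sq,
      ← Complex.normSq_eq_norm_sq, Complex.normSq_add, Complex.normSq_mul]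
    have h1 : (z i * (starRingEnd ℂ) (t * y i)).re = (t * ((starRingEnd ℂ) (z i) * y i)).re := by
      rw [← Complex.conj_re]
      congr 1
      rw [map_mul, Complex.conj_conj]
      ring
    rw [h1]
    ring
  have hcs : ‖c‖ ^ 2 ≤ A * B := by
    have h1 : ‖c‖ ≤ ∑ i, ‖z i‖ * ‖y i‖ := by
      rw [hc]
      refine (norm_sum_le _ _).trans (le_of_eq ?_)
      refine Finset.sum_congr rfl fun i _ => ?_
      rw [norm_mul, RCLike.norm_conj]
    have h2 := Finset.sum_mul_sq_le_sq_mul_sq Finset.univ (fun i => ‖z i‖) (fun i => ‖y i‖)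
    have h3 := norm_nonneg c
    calc ‖c‖ ^ 2 ≤ (∑ i, ‖z i‖ * ‖y i‖) ^ 2 := pow_le_pow_left₀ h3 h1 2
      _ ≤ A * B := h2
  set S : ℝ := A + B * R ^ 2 with hS
  set Δ : ℝ := S ^ 2 - 4 * R ^ 2 * ‖c‖ ^ 2 with hΔ
  have hΔ1 : (A - B * R ^ 2) ^ 2 ≤ Δ := by
    rw [hΔ, hS]
    have h1 : 4 * R ^ 2 * ‖c‖ ^ 2 ≤ 4 * R ^ 2 * (A * B) :=
      mul_le_mul_of_nonneg_left hcs (by positivity)
    nlinarith
  have hΔ0 : 0 ≤ Δ := (sq_nonneg _).trans hΔ1
  set X : ℝ := (S + √Δ) / 2 with hX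
  have hXA : A ≤ X := by
    have h1 : A - B * R ^ 2 ≤ √Δ := Real.le_sqrt_of_sq_le hΔ1
    rw [hX, hS]
    linarith
  have hX0 : 0 < X := hz.trans_le hXA
  have hXq : X ^ 2 - S * X + R ^ 2 * ‖c‖ ^ 2 = 0 := by
    have h1 : √Δ ^ 2 = Δ := Real.sq_sqrt hΔ0
    rw [hX]
    rw [hΔ] at h1 ⊢
    nlinarith
  set P : ℝ := √X with hP
  have hP0 : 0 < P := Real.sqrt_pos.2 hX0
  have hP2 : P ^ 2 = X := Real.sq_sqrt hX0.le
  set q : ℂ := c / P with hq
  have hPc : (P : ℂ) ≠ 0 := Complex.ofReal_ne_zero.2 hP0.ne'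
  have key : ∀ t : ℂ, ‖t‖ = R → ∑ i, ‖z i + t * y i‖ ^ 2 = ‖(P : ℂ) + t * q‖ ^ 2 := by
    intro t ht
    rw [hexp, ht, ← Complex.normSq_eq_norm_sq, Complex.normSq_add, Complex.normSq_ofReal,
      Complex.normSq_eq_norm_sq (t * q)]
    have h1 : ((P : ℂ) * (starRingEnd ℂ) (t * q)).re = (t * c).re := by
      have h2 : (P : ℂ) * (starRingEnd ℂ) (t * q) = (starRingEnd ℂ) (t * c) := by
        rw [hq, map_mul, map_mul, map_div₀, Complex.conj_ofReal]
        field_simp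
      rw [h2, Complex.conj_re]
    have h3 : ‖t * q‖ ^ 2 = R ^ 2 * (‖c‖ ^ 2 / X) := by
      rw [norm_mul, mul_pow, ht, hq, norm_div, div_pow, Complex.norm_real, Real.norm_eq_abs,
        sq_abs, hP2]
    rw [h1, h3, ← pow_two, hP2]
    have h4 : X + R ^ 2 * (‖c‖ ^ 2 / X) = A + B * R ^ 2 := by
      rw [← hS]
      field_simp
      nlinarith
    linarith
  have h1 : circleAverage (fun t : ℂ => Real.log (∑ i, ‖z i + t * y i‖ ^ 2)) 0 R =
      circleAverage (fun t : ℂ => (2 : ℝ) • Real.log ‖(P : ℂ) + t * q‖) 0 R := by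
    refine circleAverage_congr_sphere fun t ht => ?_
    have ht' : ‖t‖ = R := by
      rw [mem_sphere_zero_iff_norm, abs_of_pos hR] at ht
      exact ht
    change Real.log (∑ i, ‖z i + t * y i‖ ^ 2) = _
    rw [key t ht', Real.log_pow]
    push_cast
    rfl
  have h2 : ∀ t : ℂ, ‖t‖ = R → (P : ℂ) + t * q ≠ 0 := by
    intro t ht h0
    apply hne t ht
    rw [key t ht, h0, norm_zero]
    norm_num
  rw [h1, circleAverage_fun_smul]
  have h3 := circ_log hP0 hR h2
  have h4 : Real.log A ≤ 2 * Real.log P := by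
    have h5 : 2 * Real.log P = Real.log X := by
      rw [← hP2, Real.log_pow]
      push_cast
      ring
    rw [h5]
    exact Real.log_le_log hz hXA
  rw [smul_eq_mul]
  linarith

end Pool.Agent.H896.CT
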