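import Pool.Agent.H896.IR.Stmt
import Mathlib.MeasureTheory.Integral.CircleAverage

/-!
# Closed positive currents and contractions for isometry quotients

See `Pool.Agent.H896.IQ.Stmt` and `Pool.Agent.H896.IR.Stmt` for the groups, the line bundles, the pairs
and the classes.
-/

set_option autoImplicit false

namespace Pool.Agent.H896.IG

open MvPolynomial Pool.Agent.T2H08.FB

variable {n c : ℕ} {r : Fin c → ℕ}

/-! ### Closed positive currents -/

/-- The function `log χ`, with values in `[-∞, ∞)`, is plurisubharmonic on the set of the `(v, z)` which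
give points of `V × F`: `χ` is upper semicontinuous, and for all `ε > 0` the function `log (max χ ε)` has
the sub-mean value property on all the discs `(v + t w, z + t y)`, `|t| ≤ R`, contained in this set. -/
structure IsLogPsh (χ : (Fin n → ℂ) → (Co r → ℂ) → ℝ) : Prop where
  nonneg : ∀ v z, 0 ≤ χ v z
  usc : UpperSemicontinuousOn (fun p : (Fin n → ℂ) × (Co r → ℂ) => χ p.1 p.2) {p | IsPt p.2}
  mean : ∀ (v w : Fin n → ℂ) (z y : Co r → ℂ) (R : ℝ), 0 < R →
    (∀ t : ℂ, ‖t‖ ≤ R → IsPt (z + t • y)) → ∀ ε : ℝ, 0 < ε →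
      Real.log (max (χ v z) ε) ≤
        Real.circleAverage (fun t : ℂ => Real.log (max (χ (v + t • w) (z + t • y)) ε)) 0 R

/-- The class `x = (H, δ)` on `X` contains a closed positive current (that is, it is pseudo-effective):
there is a function `ψ` on `X` with values in `[-∞, ∞)`, not identically `-∞`, such that
`π H (v, v) + ∑ δ j log |z_j|² + ψ` is plurisubharmonic. Here `E = exp ψ`. -/
def HasPositiveCurrent (Γ : Subgroup (Trans n r)) (x : RealClass n c) : Prop :=
  ∃ E : (Fin n → ℂ) → (Co r → ℂ) → ℝ,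
    (∀ g ∈ Γ, ∀ v z, IsPt z → E (onV g v) (onZ g z) = E v z) ∧
    (∀ (μ : Fin c → ℂˣ) v z, IsPt z → E v (mulBy μ z) = E v z) ∧
    (∃ v z, IsPt z ∧ E v z ≠ 0) ∧
    (∀ v z, 0 ≤ E v z) ∧
    UpperSemicontinuousOn (fun p : (Fin n → ℂ) × (Co r → ℂ) => E p.1 p.2) {p | IsPt p.2} ∧
    IsLogPsh fun v z =>
      E v z * (Real.exp (Real.pi * (x.1 v v).re) * ∏ j, (∑ i, ‖z ⟨j, i⟩‖ ^ 2) ^ x.2 j)

/-! ### Contractions -/

/-- The coordinates of the factors `F_(ι 0), F_(ι 1), ...` of `F`. -/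
def restrict {c' : ℕ} (ι : Fin c' → Fin c) (z : Co r → ℂ) : Co (r ∘ ι) → ℂ :=
  fun s => z ⟨ι s.1, s.2⟩

/-- The transformation `g'` of `V' × F'`, where `F'` is the product of the factors `F_(ι 0), F_(ι 1), ...`
of `F`, is induced by the transformation `g` of `V × F`, by `p : V → V'` and the projection `F → F'`. -/
def Induces {n' c' : ℕ} {ι : Fin c' → Fin c} (p : (Fin n → ℂ) →ₗ[ℂ] (Fin n' → ℂ)) (g : Trans n r)
    (g' : Trans n' (r ∘ ι)) : Prop :=
  (∀ v, onV g' (p v) = p (onV g v)) ∧ ∀ z, onZ g' (restrict ι z) = restrict ι (onZ g z)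

/-- The surjective linear map `p : V → V'` and the projection `F → F'` onto the product of the factors
`F_(ι 0), F_(ι 1), ...` induce a contraction `f : X = (V × F) / Γ → Z = (V' × F') / Γ'`: `Γ'` is the group of
the transformations of `V' × F'` which are induced by those in `Γ`, and it is again a group of isometries
which is properly discontinuous with a compact quotient. So `f` is a surjective holomorphic map onto the
normal compact space `Z`, and its fibres are connected: they are the images in `X` of the manifolds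
`p⁻¹ (v') × {z'} × F''`, where `F''` is the product of the other factors. -/
structure IsContraction (Γ : Subgroup (Trans n r)) {n' c' : ℕ} (ι : Fin c' → Fin c)
    (Γ' : Subgroup (Trans n' (r ∘ ι))) (p : (Fin n → ℂ) →ₗ[ℂ] (Fin n' → ℂ)) : Prop where
  base : IsIsometryGroup Γ'
  surj : Function.Surjective p
  inj : Function.Injective ι
  maps : ∀ g ∈ Γ, ∃ g' ∈ Γ', Induces p g g'
  onto : ∀ g' ∈ Γ', ∃ g ∈ Γ, Induces p g g'

/-- The line bundle `A` is ample: the form and the degrees of its class `H + ∑ deg j ω_j` are positive. -/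
def LineBundle.IsAmple {Γ : Subgroup (Trans n r)} (A : LineBundle Γ) : Prop :=
  ∃ H, A.IsChernForm H ∧ (∀ v, v ≠ 0 → 0 < (H v v).re) ∧ ∀ j, 0 < A.deg j

/-- `L ^ M` is isomorphic to the pullback `f^* A` by the contraction `f : X → Z`: the degrees and the
factors of automorphy agree, up to the coboundary of `exp h`. -/
def IsPullback {Γ : Subgroup (Trans n r)} {n' c' : ℕ} {ι : Fin c' → Fin c}
    {Γ' : Subgroup (Trans n' (r ∘ ι))} (p : (Fin n → ℂ) →ₗ[ℂ] (Fin n' → ℂ)) (L : LineBundle Γ)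
    (M : ℕ) (A : LineBundle Γ') : Prop :=
  (∀ j, (M : ℤ) * L.deg (ι j) = A.deg j) ∧ (∀ j, j ∉ Set.range ι → L.deg j = 0) ∧
    ∃ h : (Fin n → ℂ) → ℂ, Differentiable ℂ h ∧ ∀ g ∈ Γ, ∀ g' ∈ Γ', Induces p g g' →
      ∀ v, L.e g v ^ M = A.e g' (p v) * Complex.exp (h (onV g v) - h v)

/-- `s K + ∑ d i D_i` is the pullback of an ample real divisor by a contraction `f : X → Z`: there are
positive real numbers `t_k`, line bundles `L_k = K ^ a ⊗ D_0 ^ b_0 ⊗ ...` with
`s K + ∑ d i D_i = ∑ t_k L_k`, and ample line bundles `A_k` on `Z` with `(L_k) ^ M_k = f^* A_k`, `M_k ≥ 1`. So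
`s K + ∑ d i D_i = f^* (∑ (t_k / M_k) A_k)`. -/
def IsContractionForm {Γ : Subgroup (Trans n r)} (K : LineBundle Γ) {N : ℕ}
    (D : Fin N → LineBundle Γ) (s : ℝ) (d : Fin N → ℝ) : Prop :=
  ∃ (n' c' : ℕ) (ι : Fin c' → Fin c) (Γ' : Subgroup (Trans n' (r ∘ ι)))
    (p : (Fin n → ℂ) →ₗ[ℂ] (Fin n' → ℂ)), IsContraction Γ ι Γ' p ∧
    ∃ (k₀ : Type) (_ : Fintype k₀) (t : k₀ → ℝ) (a : k₀ → ℕ) (b : k₀ → Fin N → ℕ) (M : k₀ → ℕ)
      (A : k₀ → LineBundle Γ'), (∀ k, 0 < t k) ∧ (∀ k, 1 ≤ a k) ∧ (∀ k, 1 ≤ M k) ∧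
      ∑ k, t k * a k = s ∧ (∀ i, ∑ k, t k * b k i = d i) ∧
      ∀ k, (A k).IsAmple ∧ IsPullback p (K.adj D (a k) (b k)) (M k) (A k)

end Pool.Agent.H896.IG
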