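import Pool.Agent.H896.CT.Circ
import Pool.Agent.H896.CT.Stmt
import Pool.Agent.H896.IR.Real

/-!
# Classes of closed positive currents are the nef classes
-/

set_option autoImplicit false

namespace Pool.Agent.H896.IG

open MvPolynomial Pool.Agent.T2H08.FB Pool.Agent.W594.SYZ2 Pool.Agent.W594.SYZ2.TQ
  Pool.Agent.TH735.AQ
open Pool.Agent.T2H08 Pool.Agent.H896.IQ

variable {n c : ℕ} {r : Fin c → ℕ} {Γ : Subgroup (Trans n r)}

/-- the weight of the class -/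
noncomputable def wgt (r : Fin c → ℕ) (x : RealClass n c) (v : Fin n → ℂ) (z : Co r → ℂ) : ℝ :=
  Real.exp (Real.pi * (x.1 v v).re) * ∏ j, (∑ i, ‖z ⟨j, i⟩‖ ^ 2) ^ x.2 j

theorem nsq_pos {z : Co r → ℂ} (hz : IsPt z) (j : Fin c) : 0 < ∑ i, ‖z ⟨j, i⟩‖ ^ 2 := by
  obtain ⟨i, hi⟩ := hz j
  exact Finset.sum_pos' (fun _ _ => sq_nonneg _) ⟨i, Finset.mem_univ _, by positivity⟩

theorem wgt_pos {z : Co r → ℂ} (hz : IsPt z) (x : RealClass n c) (v : Fin n → ℂ) :
    0 < wgt r x v z :=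
  mul_pos (Real.exp_pos _) (Finset.prod_pos fun j _ => Real.rpow_pos_of_pos (nsq_pos hz j) _)

/-- invariant bounded -/
theorem current_bdd (hΓ : IsIsometryGroup Γ) {E : (Fin n → ℂ) → (Co r → ℂ) → ℝ}
    (h1 : ∀ g ∈ Γ, ∀ v z, IsPt z → E (onV g v) (onZ g z) = E v z)
    (h2 : ∀ (μ : Fin c → ℂˣ) v z, IsPt z → E v (mulBy μ z) = E v z)
    (h3 : UpperSemicontinuousOn (fun p : (Fin n → ℂ) × (Co r → ℂ) => E p.1 p.2) {p | IsPt p.2}) :
    ∃ C : ℝ, ∀ v z, IsPt z → E v z ≤ C := by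
  obtain ⟨C, hC⟩ := cobounded (latt (FQ.GA (fac Γ))) (isUQ hΓ).torus.span_top
  have hK : IsCompact (Metric.closedBall (0 : Fin n → ℂ) C ×ˢ {z : Co r → ℂ | IsUnit' z}) :=
    (isCompact_closedBall _ _).prod isCompact_unit
  have hpt : ∀ z : Co r → ℂ, IsUnit' z → IsPt z := by
    intro z hz j
    by_contra hcon
    push Not at hcon
    have h4 := hz j
    rw [Finset.sum_eq_zero fun i _ => by rw [hcon i]; simp] at h4
    exact zero_ne_one h4
  have h4 : UpperSemicontinuousOn (fun p : (Fin n → ℂ) × (Co r → ℂ) => E p.1 p.2)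
      (Metric.closedBall (0 : Fin n → ℂ) C ×ˢ {z : Co r → ℂ | IsUnit' z}) :=
    h3.mono fun p hp => hpt p.2 hp.2
  obtain ⟨R, hR⟩ := h4.bddAbove_of_isCompact hK
  refine ⟨R, fun v z hz => ?_⟩
  obtain ⟨μ, hμ⟩ := exists_unit hz
  have hμp := hpt _ hμ
  rw [← h2 μ v z hz]
  obtain ⟨b, hb, hbC⟩ := hC v
  obtain ⟨A, hA⟩ := FQ.mem_GA.1 (mem_latt.1 hb)
  obtain ⟨g, hg⟩ : ∃ g : Trans n r, g = ((AffineEquiv.constVAdd ℂ (Fin n → ℂ) b, A) :
    FQ.Grp n r) := ⟨_, rfl⟩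
  have h5 : g ∈ Γ ∧ Permutes g 1 := by
    rw [hg]
    exact hA
  rw [← h1 g h5.1 v _ hμp]
  refine hR ⟨(onV g v, onZ g (mulBy μ z)), ⟨?_, fun j => ?_⟩, rfl⟩
  · rw [mem_closedBall_zero_iff]
    have h6 : onV g v = b + v := by rw [hg]; rfl
    rw [h6]
    exact hbC
  · have h6 := h5.2 (mulBy μ z) j
    exact h6.trans (hμ j)

/-- a plurisubharmonic function does not decay along lines -/
theorem no_decay {χ : (Fin n → ℂ) → (Co r → ℂ) → ℝ} (hχ : IsLogPsh χ) {v w : Fin n → ℂ}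
    {z y : Co r → ℂ} (hpt : ∀ t : ℂ, IsPt (z + t • y))
    (hdec : ∀ ε : ℝ, 0 < ε → ∃ R : ℝ, 0 < R ∧ ∀ t : ℂ, ‖t‖ = R → χ (v + t • w) (z + t • y) ≤ ε) :
    χ v z = 0 := by
  by_contra hne
  have hpos : 0 < χ v z := lt_of_le_of_ne (hχ.nonneg v z) (Ne.symm hne)
  obtain ⟨R, hR, hRt⟩ := hdec (χ v z / 2) (by positivity)
  have h1 := hχ.mean v w z y R hR (fun t _ => hpt t) (χ v z / 2) (by positivity)
  have h2 : Real.circleAverage
      (fun t : ℂ => Real.log (max (χ (v + t • w) (z + t • y)) (χ v z / 2))) 0 R =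
      Real.log (χ v z / 2) := by
    refine Real.circleAverage_const_on_circle fun t ht => ?_
    have ht' : ‖t‖ = R := by
      rw [mem_sphere_zero_iff_norm, abs_of_pos hR] at ht
      exact ht
    rw [max_eq_right (hRt t ht')]
  rw [h2, max_eq_left (by linarith)] at h1
  have h3 := Real.log_lt_log (by positivity : 0 < χ v z / 2) (by linarith : χ v z / 2 < χ v z)
  linarith

theorem nef_of_current (hΓ : IsIsometryGroup Γ) {x : RealClass n c} (hx : IsHermitian x.1)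
    (h : HasPositiveCurrent Γ x) : IsNefClass x := by
  classical
  obtain ⟨E, h1, h2, ⟨v, z, hz, hE⟩, h0, h3, hpsh⟩ := h
  obtain ⟨C, hC⟩ := current_bdd hΓ h1 h2 h3
  have hC0 : 0 ≤ C := (h0 v z).trans (hC v z hz)
  have hχ : E v z * wgt r x v z ≠ 0 := mul_ne_zero hE (wgt_pos hz x v).ne'
  refine ⟨fun w => ?_, fun j => ?_⟩
  · by_contra hneg
    push Not at hneg
    apply hχ
    refine no_decay hpsh (w := w) (y := 0) (fun t => by rw [smul_zero, add_zero]; exact hz)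
      fun ε hε => ?_
    -- the constants
    set P : ℝ := ∏ j, (∑ i, ‖z ⟨j, i⟩‖ ^ 2) ^ x.2 j with hP
    have hP0 : 0 ≤ P := Finset.prod_nonneg fun j _ => (Real.rpow_pos_of_pos (nsq_pos hz j) _).le
    set κ : ℝ := -(x.1 w w).re with hκ
    have hκ0 : 0 < κ := neg_pos.2 hneg
    set a : ℝ := ‖x.1 w v‖ with ha
    have ha0 : 0 ≤ a := norm_nonneg _
    set b : ℝ := C * P / (ε * Real.pi) with hb
    have hb0 : 0 ≤ b := by positivity
    set R : ℝ := max 1 ((|(x.1 v v).re| + 2 * a + b) / κ) with hR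
    have hR1 : 1 ≤ R := le_max_left _ _
    have hR0 : 0 < R := by linarith
    have hR2 : |(x.1 v v).re| + 2 * a + b ≤ R * κ := by
      rw [← div_le_iff₀ hκ0]
      exact le_max_right _ _
    refine ⟨R, hR0, fun t ht => ?_⟩
    rw [smul_zero, add_zero]
    change E (v + t • w) z * (Real.exp (Real.pi * (x.1 (v + t • w) (v + t • w)).re) * P) ≤ ε
    have e1 : (x.1 (v + t • w) (v + t • w)).re
        = (x.1 v v).re + ‖t‖ ^ 2 * (x.1 w w).re + 2 * (t * x.1 w v).re := by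
      rw [add_comm v, h_diag_add hx, h_diag_smul hx, hx.smul_left]
      ring
    have e2 : (t * x.1 w v).re ≤ R * a := by
      refine (Complex.re_le_norm _).trans ?_
      rw [norm_mul, ht]
    have e3 : (x.1 (v + t • w) (v + t • w)).re ≤ -b := by
      rw [e1, ht]
      have h4 : (x.1 v v).re ≤ |(x.1 v v).re| := le_abs_self _
      have h5 : 0 ≤ |(x.1 v v).re| := abs_nonneg _
      have h6 : R * (|(x.1 v v).re| + 2 * a + b) ≤ R * (R * κ) :=
        mul_le_mul_of_nonneg_left hR2 hR0.le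
      have h7 : (x.1 w w).re = -κ := by rw [hκ, neg_neg]
      rw [h7]
      nlinarith
    have e4 : Real.exp (Real.pi * (x.1 (v + t • w) (v + t • w)).re) ≤ Real.exp (-(Real.pi * b)) := by
      apply Real.exp_le_exp.2
      nlinarith [Real.pi_pos]
    have e5 : Real.exp (-(Real.pi * b)) * (C * P) ≤ ε := by
      rw [Real.exp_neg, inv_mul_le_iff₀ (Real.exp_pos _)]
      have h4 := Real.add_one_le_exp (Real.pi * b)
      have h5 : Real.pi * b = C * P / ε := by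
        rw [hb]
        field_simp
      rw [h5] at h4 ⊢
      have h6 : C * P = (C * P / ε) * ε := by field_simp
      nlinarith [Real.exp_pos (C * P / ε)]
    calc E (v + t • w) z * (Real.exp (Real.pi * (x.1 (v + t • w) (v + t • w)).re) * P)
        ≤ C * (Real.exp (-(Real.pi * b)) * P) := by
          apply mul_le_mul (hC _ _ hz) _ (by positivity) hC0
          exact mul_le_mul_of_nonneg_right e4 hP0
      _ = Real.exp (-(Real.pi * b)) * (C * P) := by ring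
      _ ≤ ε := e5
  · by_contra hneg
    push Not at hneg
    apply hχ
    obtain ⟨i0, hi0⟩ := hz j
    obtain ⟨i1, hi1⟩ : ∃ i1 : Fin (r j + 1), i1 ≠ i0 := by
      have hr := hΓ.pos j
      have : Nontrivial (Fin (r j + 1)) := Fin.nontrivial_iff_two_le.2 (by omega)
      exact exists_ne i0
    set y : Co r → ℂ := Pi.single ⟨j, i1⟩ 1 with hy
    have hyj : ∀ j' i, j' ≠ j → y ⟨j', i⟩ = 0 := by
      intro j' i hj'
      rw [hy]
      exact Pi.single_eq_of_ne (fun h => hj' (congrArg Sigma.fst h)) _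
    have hy0 : y ⟨j, i0⟩ = 0 := by
      rw [hy]
      refine Pi.single_eq_of_ne (fun h => hi1 ?_) _
      have h4 := (Sigma.mk.injEq _ _ _ _).mp h
      exact (eq_of_heq h4.2).symm
    have hy1 : y ⟨j, i1⟩ = 1 := by
      rw [hy]
      exact Pi.single_eq_same _ _
    have hpt : ∀ t : ℂ, IsPt (z + t • y) := by
      intro t j'
      by_cases hj : j' = j
      · subst hj
        refine ⟨i0, ?_⟩
        change z ⟨j', i0⟩ + t * y ⟨j', i0⟩ ≠ 0
        rw [hy0, mul_zero, add_zero]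
        exact hi0
      · obtain ⟨i, hi⟩ := hz j'
        refine ⟨i, ?_⟩
        change z ⟨j', i⟩ + t * y ⟨j', i⟩ ≠ 0
        rw [hyj j' i hj, mul_zero, add_zero]
        exact hi
    refine no_decay hpsh (w := 0) (y := y) hpt fun ε hε => ?_
    set δ : ℝ := -(x.2 j) with hδ
    have hδ0 : 0 < δ := neg_pos.2 hneg
    set P : ℝ := Real.exp (Real.pi * (x.1 v v).re) *
      ∏ j' ∈ Finset.univ.erase j, (∑ i, ‖z ⟨j', i⟩‖ ^ 2) ^ x.2 j' with hP
    have hP0 : 0 ≤ P := mul_nonneg (Real.exp_pos _).le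
      (Finset.prod_nonneg fun j _ => (Real.rpow_pos_of_pos (nsq_pos hz j) _).le)
    set b : ℝ := C * P / (ε * (2 * δ)) with hb
    have hb0 : 0 ≤ b := by positivity
    set a : ℝ := ‖z ⟨j, i1⟩‖ with ha
    have ha0 : 0 ≤ a := norm_nonneg _
    refine ⟨a + Real.exp b, by positivity, fun t ht => ?_⟩
    rw [smul_zero, add_zero]
    change E v (z + t • y) * (Real.exp (Real.pi * (x.1 v v).re) *
      ∏ j', (∑ i, ‖(z + t • y) ⟨j', i⟩‖ ^ 2) ^ x.2 j') ≤ ε
    have e1 : ∏ j', (∑ i, ‖(z + t • y) ⟨j', i⟩‖ ^ 2) ^ x.2 j' =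
        (∑ i, ‖(z + t • y) ⟨j, i⟩‖ ^ 2) ^ x.2 j *
          ∏ j' ∈ Finset.univ.erase j, (∑ i, ‖z ⟨j', i⟩‖ ^ 2) ^ x.2 j' := by
      rw [← Finset.mul_prod_erase Finset.univ _ (Finset.mem_univ j)]
      congr 1
      refine Finset.prod_congr rfl fun j' hj' => ?_
      have hj'' : j' ≠ j := Finset.ne_of_mem_erase hj'
      have e2 : ∀ i, (z + t • y) ⟨j', i⟩ = z ⟨j', i⟩ := by
        intro i
        change z ⟨j', i⟩ + t * y ⟨j', i⟩ = _
        rw [hyj j' i hj'', mul_zero, add_zero]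
      simp only [e2]
    have e3 : Real.exp b ^ 2 ≤ ∑ i, ‖(z + t • y) ⟨j, i⟩‖ ^ 2 := by
      have e4 : ‖(z + t • y) ⟨j, i1⟩‖ ^ 2 ≤ ∑ i, ‖(z + t • y) ⟨j, i⟩‖ ^ 2 :=
        Finset.single_le_sum (f := fun i => ‖(z + t • y) ⟨j, i⟩‖ ^ 2) (fun _ _ => sq_nonneg _)
          (Finset.mem_univ i1)
      refine le_trans ?_ e4
      have e5 : Real.exp b ≤ ‖(z + t • y) ⟨j, i1⟩‖ := by
        change Real.exp b ≤ ‖z ⟨j, i1⟩ + t * y ⟨j, i1⟩‖
        rw [hy1, mul_one]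
        have e6 : ‖t‖ ≤ ‖z ⟨j, i1⟩ + t‖ + ‖z ⟨j, i1⟩‖ := by
          have e7 : t = (z ⟨j, i1⟩ + t) - z ⟨j, i1⟩ := by ring
          calc ‖t‖ = ‖(z ⟨j, i1⟩ + t) - z ⟨j, i1⟩‖ := by rw [← e7]
            _ ≤ _ := norm_sub_le _ _
        rw [ht] at e6
        linarith
      exact pow_le_pow_left₀ (Real.exp_pos b).le e5 2
    have e4 : (∑ i, ‖(z + t • y) ⟨j, i⟩‖ ^ 2) ^ x.2 j ≤ Real.exp (-(2 * δ * b)) := by
      have e5 : (Real.exp b ^ 2) ^ x.2 j = Real.exp (-(2 * δ * b)) := by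
        rw [← Real.exp_nat_mul, ← Real.exp_mul]
        congr 1
        rw [hδ]
        push_cast
        ring
      rw [← e5]
      exact Real.rpow_le_rpow_of_nonpos (by positivity) e3 hneg.le
    have e5 : Real.exp (-(2 * δ * b)) * (C * P) ≤ ε := by
      rw [Real.exp_neg, inv_mul_le_iff₀ (Real.exp_pos _)]
      have h4 := Real.add_one_le_exp (2 * δ * b)
      have h5 : 2 * δ * b = C * P / ε := by
        rw [hb]
        field_simp
      rw [h5] at h4 ⊢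
      have h6 : C * P = (C * P / ε) * ε := by field_simp
      nlinarith [Real.exp_pos (C * P / ε)]
    rw [e1]
    have hQ0 : 0 ≤ ∏ j' ∈ Finset.univ.erase j, (∑ i, ‖z ⟨j', i⟩‖ ^ 2) ^ x.2 j' :=
      Finset.prod_nonneg fun j _ => (Real.rpow_pos_of_pos (nsq_pos hz j) _).le
    have e6 : Real.exp (Real.pi * (x.1 v v).re) * ((∑ i, ‖(z + t • y) ⟨j, i⟩‖ ^ 2) ^ x.2 j *
          ∏ j' ∈ Finset.univ.erase j, (∑ i, ‖z ⟨j', i⟩‖ ^ 2) ^ x.2 j') =
        (∑ i, ‖(z + t • y) ⟨j, i⟩‖ ^ 2) ^ x.2 j * P := by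
      rw [hP]
      ring
    rw [e6]
    calc E v (z + t • y) * ((∑ i, ‖(z + t • y) ⟨j, i⟩‖ ^ 2) ^ x.2 j * P)
        ≤ C * (Real.exp (-(2 * δ * b)) * P) := by
          apply mul_le_mul (hC _ _ (hpt t)) _
            (mul_nonneg (Real.rpow_nonneg (Finset.sum_nonneg fun _ _ => sq_nonneg _) _) hP0) hC0
          exact mul_le_mul_of_nonneg_right e4 hP0
      _ = Real.exp (-(2 * δ * b)) * (C * P) := by ring
      _ ≤ ε := e5

end Pool.Agent.H896.IG
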