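import Pool.Agent.H896.CT.Cur

/-!
# Nef classes contain semipositive forms
-/

set_option autoImplicit false

namespace Pool.Agent.H896.IG

open MvPolynomial Pool.Agent.T2H08.FB Pool.Agent.W594.SYZ2 Pool.Agent.W594.SYZ2.TQ
  Pool.Agent.TH735.AQ
open Pool.Agent.T2H08 Pool.Agent.H896.IQ

variable {n c : ℕ} {r : Fin c → ℕ} {Γ : Subgroup (Trans n r)}

theorem wgt_continuousOn {x : RealClass n c} (hx : IsHermitian x.1) :
    ContinuousOn (fun p : (Fin n → ℂ) × (Co r → ℂ) => wgt r x p.1 p.2) {p | IsPt p.2} := by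
  unfold wgt
  refine ContinuousOn.mul ?_ ?_
  · refine (Real.continuous_exp.comp ?_).continuousOn
    exact continuous_const.mul ((diag_continuous hx).comp continuous_fst)
  · refine continuousOn_finsetProd _ fun j _ => ?_
    refine ContinuousOn.rpow_const ?_ fun p hp => Or.inl (nsq_pos hp j).ne'
    refine Continuous.continuousOn ?_
    exact continuous_finsetSum _ fun i _ => (((continuous_apply _).comp continuous_snd).norm).pow 2

theorem log_wgt {z : Co r → ℂ} (hz : IsPt z) (x : RealClass n c) (v : Fin n → ℂ) :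
    Real.log (wgt r x v z) =
      Real.pi * (x.1 v v).re + ∑ j, x.2 j * Real.log (∑ i, ‖z ⟨j, i⟩‖ ^ 2) := by
  unfold wgt
  rw [Real.log_mul (Real.exp_pos _).ne' (Finset.prod_pos fun j _ =>
    Real.rpow_pos_of_pos (nsq_pos hz j) _).ne', Real.log_exp, Real.log_prod fun j _ =>
    (Real.rpow_pos_of_pos (nsq_pos hz j) _).ne']
  congr 1
  exact Finset.sum_congr rfl fun j _ => Real.log_rpow (nsq_pos hz j) _

theorem psh_of_nef {x : RealClass n c} (hx : IsHermitian x.1) (hn : IsNefClass x) :
    IsLogPsh (r := r) fun v z => 1 * (Real.exp (Real.pi * (x.1 v v).re) *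
      ∏ j, (∑ i, ‖z ⟨j, i⟩‖ ^ 2) ^ x.2 j) := by
  have hfun : (fun (v : Fin n → ℂ) (z : Co r → ℂ) => 1 * (Real.exp (Real.pi * (x.1 v v).re) *
      ∏ j, (∑ i, ‖z ⟨j, i⟩‖ ^ 2) ^ x.2 j)) = wgt r x := by
    funext v z
    rw [one_mul]
    rfl
  rw [hfun]
  refine ⟨fun v z => ?_, (wgt_continuousOn hx).upperSemicontinuousOn, ?_⟩
  · exact mul_nonneg (Real.exp_pos _).le (Finset.prod_nonneg fun j _ =>
      Real.rpow_nonneg (Finset.sum_nonneg fun _ _ => sq_nonneg _) _)
  · intro v w z y R hR hpt ε hε
    have hz : IsPt z := by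
      have h1 := hpt 0 (by rw [norm_zero]; exact hR.le)
      rwa [zero_smul, add_zero] at h1
    -- continuity on the circle
    have hline : Continuous fun t : ℂ => ((v + t • w, z + t • y) :
        (Fin n → ℂ) × (Co r → ℂ)) := by fun_prop
    have hmaps : Set.MapsTo (fun t : ℂ => ((v + t • w, z + t • y) :
        (Fin n → ℂ) × (Co r → ℂ))) (Metric.sphere 0 |R|) {p | IsPt p.2} := by
      intro t ht
      rw [mem_sphere_zero_iff_norm, abs_of_pos hR] at ht
      exact hpt t ht.le
    have hc1 : ContinuousOn (fun t : ℂ => wgt r x (v + t • w) (z + t • y))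
        (Metric.sphere 0 |R|) := (wgt_continuousOn hx).comp hline.continuousOn hmaps
    have hpos : ∀ t ∈ Metric.sphere (0 : ℂ) |R|, 0 < wgt r x (v + t • w) (z + t • y) :=
      fun t ht => wgt_pos (hmaps ht) x _
    have hc2 : ContinuousOn (fun t : ℂ => Real.log (max (wgt r x (v + t • w) (z + t • y)) ε))
        (Metric.sphere 0 |R|) := by
      refine ContinuousOn.log (hc1.sup continuousOn_const) fun t ht => ?_
      exact (lt_max_of_lt_right hε).ne'
    have hi2 := hc2.circleIntegrable'
    rcases le_total (wgt r x v z) ε with hle | hle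
    · rw [max_eq_right hle]
      have h1 := Real.circleAverage_mono (circleIntegrable_const (Real.log ε) 0 R) hi2
        (fun t _ => Real.log_le_log hε (le_max_right _ _))
      rwa [Real.circleAverage_const] at h1
    · rw [max_eq_left hle, log_wgt hz]
      -- the parts
      have hcH : Continuous fun t : ℂ => (x.1 (v + t • w) (v + t • w)).re :=
        (diag_continuous hx).comp (by fun_prop)
      have hcN : ∀ j, ContinuousOn (fun t : ℂ => Real.log (∑ i, ‖(z + t • y) ⟨j, i⟩‖ ^ 2))
          (Metric.sphere 0 |R|) := by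
        intro j
        refine ContinuousOn.log (Continuous.continuousOn (by fun_prop)) fun t ht => ?_
        exact (nsq_pos (hmaps ht) j).ne'
      have hiH : CircleIntegrable (fun t : ℂ => (x.1 (v + t • w) (v + t • w)).re) 0 R :=
        hcH.continuousOn.circleIntegrable'
      have hiN : ∀ j, CircleIntegrable
          (fun t : ℂ => Real.log (∑ i, ‖(z + t • y) ⟨j, i⟩‖ ^ 2)) 0 R := fun j =>
        (hcN j).circleIntegrable'
      have h1 : (x.1 v v).re ≤
          Real.circleAverage (fun t : ℂ => (x.1 (v + t • w) (v + t • w)).re) 0 R := by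
        have h2 : Real.circleAverage (fun t : ℂ => (x.1 (v + t • w) (v + t • w)).re) 0 R =
            Real.circleAverage (fun t : ℂ => ((x.1 v v).re + R ^ 2 * (x.1 w w).re) +
              (2 : ℝ) • (t * x.1 w v).re) 0 R := by
          refine Real.circleAverage_congr_sphere fun t ht => ?_
          rw [mem_sphere_zero_iff_norm, abs_of_pos hR] at ht
          change (x.1 (v + t • w) (v + t • w)).re = _
          rw [add_comm v, h_diag_add hx, h_diag_smul hx, hx.smul_left, ht, smul_eq_mul]
          ring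
        have h3 : CircleIntegrable (fun t : ℂ => (t * x.1 w v).re) 0 R :=
          (Continuous.continuousOn (by fun_prop)).circleIntegrable'
        have h4 : CircleIntegrable (fun t : ℂ => (2 : ℝ) • (t * x.1 w v).re) 0 R :=
          (Continuous.continuousOn (by fun_prop)).circleIntegrable'
        rw [h2, Real.circleAverage_fun_add (circleIntegrable_const _ _ _) h4,
          Real.circleAverage_const, Real.circleAverage_fun_smul, CT.circ_linear, smul_zero,
          add_zero]
        have h5 := hn.1 w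
        nlinarith [sq_nonneg R]
      have h2 : ∀ j, Real.log (∑ i, ‖z ⟨j, i⟩‖ ^ 2) ≤
          Real.circleAverage (fun t : ℂ => Real.log (∑ i, ‖(z + t • y) ⟨j, i⟩‖ ^ 2)) 0 R := by
        intro j
        exact CT.circ_norm (fun i => z ⟨j, i⟩) (fun i => y ⟨j, i⟩) hR (nsq_pos hz j)
          fun t ht => (nsq_pos (hpt t ht.le) j).ne'
      have hi3 : CircleIntegrable (fun t : ℂ => Real.pi • (x.1 (v + t • w) (v + t • w)).re) 0 R :=
        (hcH.const_smul Real.pi).continuousOn.circleIntegrable'
      have hi4 : ∀ j, CircleIntegrable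
          (fun t : ℂ => x.2 j • Real.log (∑ i, ‖(z + t • y) ⟨j, i⟩‖ ^ 2)) 0 R := fun j =>
        ((hcN j).const_smul (x.2 j)).circleIntegrable'
      have hc5 : ContinuousOn (fun t : ℂ =>
          ∑ j, x.2 j • Real.log (∑ i, ‖(z + t • y) ⟨j, i⟩‖ ^ 2)) (Metric.sphere 0 |R|) :=
        continuousOn_finsetSum _ fun j _ => (hcN j).const_smul (x.2 j)
      have h3 : Real.pi * (x.1 v v).re + ∑ j, x.2 j * Real.log (∑ i, ‖z ⟨j, i⟩‖ ^ 2) ≤
          Real.circleAverage (fun t : ℂ => Real.pi • (x.1 (v + t • w) (v + t • w)).re +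
            ∑ j, x.2 j • Real.log (∑ i, ‖(z + t • y) ⟨j, i⟩‖ ^ 2)) 0 R := by
        rw [Real.circleAverage_fun_add hi3 hc5.circleIntegrable', Real.circleAverage_fun_smul,
          Real.circleAverage_fun_sum fun j _ => hi4 j]
        refine add_le_add (mul_le_mul_of_nonneg_left h1 Real.pi_pos.le)
          (Finset.sum_le_sum fun j _ => ?_)
        rw [Real.circleAverage_fun_smul]
        exact mul_le_mul_of_nonneg_left (h2 j) (hn.2 j)
      refine h3.trans (Real.circleAverage_mono ?_ hi2 fun t ht => ?_)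
      · exact ((hcH.const_smul Real.pi).continuousOn.add hc5).circleIntegrable'
      · have h4 := log_wgt (hmaps ht) x (v + t • w)
        simp only [smul_eq_mul]
        rw [← h4]
        exact Real.log_le_log (hpos t ht) (le_max_left _ _)

/-- **A class contains a closed positive current if and only if it is nef.** -/
theorem current_iff (hΓ : IsIsometryGroup Γ) {x : RealClass n c} (hx : IsHermitian x.1) :
    HasPositiveCurrent Γ x ↔ IsNefClass x := by
  refine ⟨nef_of_current hΓ hx, fun h => ⟨fun _ _ => 1, fun _ _ _ _ _ => rfl, fun _ _ _ _ => rfl,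
    ⟨0, fun _ => 1, fun j => ⟨0, one_ne_zero⟩, one_ne_zero⟩, fun _ _ => zero_le_one,
    continuousOn_const.upperSemicontinuousOn, psh_of_nef hx h⟩⟩

theorem cls_herm {HK : (Fin n → ℂ) → (Fin n → ℂ) → ℂ} {N : ℕ}
    {HD : Fin N → (Fin n → ℂ) → (Fin n → ℂ) → ℂ} (hK : IsHermitian HK)
    (hD : ∀ i, IsHermitian (HD i)) (s : ℝ) (d : Fin N → ℝ) :
    IsHermitian (Q47.MM.cls HK HD s d) := by
  refine ⟨fun u v w => ?_, fun a v w => ?_, fun v w => ?_⟩
  · simp only [Q47.MM.cls, hK.add_left, (hD _).add_left, mul_add, Finset.sum_add_distrib]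
    ring
  · simp only [Q47.MM.cls, hK.smul_left, (hD _).smul_left, mul_add, Finset.mul_sum]
    congr 1
    · ring
    · exact Finset.sum_congr rfl fun i _ => by ring
  · simp only [Q47.MM.cls, map_add, map_mul, map_sum, Complex.conj_ofReal, ← hK.symm,
      ← (hD _).symm]

end Pool.Agent.H896.IG
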