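import Pool.Agent.H896.CT.Bun
import Pool.Agent.H896.GN.Adj

/-!
# The contraction
-/

set_option autoImplicit false

namespace Pool.Agent.H896.IG

open MvPolynomial Pool.Agent.T2H08.FB Pool.Agent.W594.SYZ2 Pool.Agent.W594.SYZ2.TQ
  Pool.Agent.TH735.AQ
open Pool.Agent.T2H08 Pool.Agent.H896.IQ

/-- positive combinations with respect to sums -/
theorem exists_mix {ι : Type*} [Fintype ι] {t : ι → ℝ} (ht : ∀ k, 0 < t k) :
    ∃ (q : ℕ) (t' : ι → ℝ), 1 ≤ q ∧ (∀ k, 0 < t' k) ∧ ∀ y : ι → ℝ,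
      ∑ k, t' k * (q * y k + ∑ l, y l) = ∑ k, t k * y k := by
  classical
  set T : ℝ := ∑ k, t k with hT
  have hT0 : 0 ≤ T := Finset.sum_nonneg fun k _ => (ht k).le
  choose Q hQ using fun k => exists_nat_gt (T / t k)
  set q : ℕ := 1 + ∑ k, Q k with hq
  have hqk : ∀ k, T < q * t k := by
    intro k
    have h1 : (Q k : ℝ) ≤ q := by
      have h2 : Q k ≤ ∑ k, Q k := Finset.single_le_sum (f := Q) (fun _ _ => Nat.zero_le _)
        (Finset.mem_univ k)
      have h3 : Q k ≤ q := by omega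
      exact_mod_cast h3
    have h2 := (div_lt_iff₀ (ht k)).1 (hQ k)
    exact h2.trans_le (mul_le_mul_of_nonneg_right h1 (ht k).le)
  have hq1 : (1 : ℝ) ≤ q := by
    have : 1 ≤ q := by omega
    exact_mod_cast this
  set c : ℝ := (Fintype.card ι : ℝ) with hc
  have hc0 : 0 ≤ c := Nat.cast_nonneg _
  set T' : ℝ := T / (q + c) with hT'
  have hqc : 0 < q + c := by linarith
  have hT'k : ∀ k, T' < t k := by
    intro k
    rw [hT', div_lt_iff₀ hqc]
    nlinarith [hqk k, ht k]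
  refine ⟨q, fun k => (t k - T') / q, by omega, fun k => div_pos (sub_pos.2 (hT'k k))
    (by linarith), fun y => ?_⟩
  have hq0 : (q : ℝ) ≠ 0 := by linarith
  have h1 : ∑ k, (t k - T') / q = T' := by
    rw [← Finset.sum_div, Finset.sum_sub_distrib, ← hT, Finset.sum_const, Finset.card_univ,
      nsmul_eq_mul, ← hc, hT']
    field_simp
    ring
  have h2 : ∀ k, (t k - T') / q * (q * y k + ∑ l, y l) =
      t k * y k - T' * y k + (t k - T') / q * ∑ l, y l := by
    intro k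
    field_simp
  rw [Finset.sum_congr rfl fun k _ => h2 k, Finset.sum_add_distrib, Finset.sum_sub_distrib,
    ← Finset.sum_mul, h1, ← Finset.mul_sum]
  ring

variable {n c : ℕ} {r : Fin c → ℕ} {Γ : Subgroup (Trans n r)}
  {K : LineBundle Γ} {N : ℕ} {D : Fin N → LineBundle Γ}
  {HK : (Fin n → ℂ) → (Fin n → ℂ) → ℂ} {HD : Fin N → (Fin n → ℂ) → (Fin n → ℂ) → ℂ}
  {ρ : (Fin n → ℂ) → ℂ} {σ : MvPolynomial (Co r) ℂ} {l : Fin c → ℕ} {m : ℕ}
  {β : Fin N → (Fin n → ℂ) → MvPolynomial (Co r) ℂ} {κ : Fin N → Fin c → ℕ}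

/-- The class as a combination of integral nef classes. -/
theorem exists_dec (hΓ : IsIsometryGroup Γ) (hρ : IsRamification Γ ρ σ l) (hm : 1 ≤ m)
    (hK : IsLogPluricanonical K m ρ σ l (fun _ => 1) (fun _ => 0)) (hHK : K.IsChernForm HK)
    (hβ : ∀ i, IsCartier (D i) (β i) (κ i)) (hHD : ∀ i, (D i).IsChernForm (HD i))
    {d : Fin N → ℝ} (hd : ∀ i, 0 < d i) (hn : IsNefClass (realClass K HK D HD (1 / m) d)) :
    ∃ (ι : Type) (_ : Fintype ι) (t : ι → ℝ) (a : ι → ℕ) (b : ι → Fin N → ℕ), Nonempty ι ∧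
      (∀ k, 0 < t k) ∧ (∀ k, 1 ≤ a k) ∧ (∀ k i, 1 ≤ b k i) ∧ ∑ k, t k * a k = 1 / (m : ℝ) ∧
      (∀ i, ∑ k, t k * b k i = d i) ∧ (∀ k, IsNefForm (Q47.MM.cls HK HD (a k) fun i => b k i)) ∧
      ∀ k j, 0 ≤ (K.adj D (a k) (b k)).deg j := by
  obtain ⟨hnf, hnd⟩ := hn
  have hm0 : (0 : ℝ) < m := by exact_mod_cast hm
  have hs : (0 : ℝ) < 1 / m := by positivity
  obtain ⟨J, hJ, kk, xx, htest⟩ := exists_int_tests hΓ hρ hK hHK hβ hHD
  let nn : Fin (N + 1) ⊕ (J ⊕ Fin c) → Fin (N + 1) → ℤ :=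
    Sum.elim (fun i j => if i = j then 1 else 0)
      (Sum.elim (fun j => Fin.cons (kk j) fun i => xx j i)
        (fun j => Fin.cons (K.deg j) fun i => (D i).deg j))
  let x : Fin (N + 1) → ℝ := Fin.cons (1 / m) d
  have hl : ∀ (y : Fin (N + 1) → ℝ) (i : Fin (N + 1)),
      ∑ j, (nn (Sum.inl i) j : ℝ) * y j = y i := by
    intro y i
    simp [nn]
  have hr : ∀ (y : Fin (N + 1) → ℝ) (j : J), ∑ i, (nn (Sum.inr (Sum.inl j)) i : ℝ) * y i
      = y 0 * kk j + ∑ i, y (Fin.succ i) * xx j i := by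
    intro y j
    rw [Fin.sum_univ_succ]
    simp only [nn, Sum.elim_inr, Sum.elim_inl, Fin.cons_zero, Fin.cons_succ]
    rw [mul_comm]
    congr 1
    exact Finset.sum_congr rfl fun i _ => mul_comm _ _
  have hr2 : ∀ (y : Fin (N + 1) → ℝ) (j : Fin c), ∑ i, (nn (Sum.inr (Sum.inr j)) i : ℝ) * y i
      = y 0 * K.deg j + ∑ i, y (Fin.succ i) * (D i).deg j := by
    intro y j
    rw [Fin.sum_univ_succ]
    simp only [nn, Sum.elim_inr, Fin.cons_zero, Fin.cons_succ]
    rw [mul_comm]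
    congr 1
    exact Finset.sum_congr rfl fun i _ => mul_comm _ _
  have hx0 : ∀ i, 0 < x i := by
    intro i
    refine Fin.cases ?_ (fun i => ?_) i
    · exact hs
    · exact hd i
  obtain ⟨ι, hι, t, b, ht, hsum, hb⟩ := Q47.MM.cone_decomp nn x (by
    rintro (i | j | j)
    · rw [hl]
      exact (hx0 i).le
    · rw [hr]
      exact (htest _ d fun i => (hd i).le).1 hnf j
    · rw [hr2]
      exact hnd j)
  have hbpos : ∀ k i, 0 < b k i := by
    intro k i
    have h1 := (hb k (Sum.inl i)).2 (by rw [hl]; exact hx0 i)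
    simpa [nn] using h1
  have hbR : ∀ k i, (((b k i).toNat : ℕ) : ℝ) = b k i := by
    intro k i
    have := Int.toNat_of_nonneg (hbpos k i).le
    exact_mod_cast this
  have hbZ : ∀ k i, (((b k i).toNat : ℕ) : ℤ) = b k i := by
    intro k i
    exact Int.toNat_of_nonneg (hbpos k i).le
  have hne : Nonempty ι := by
    by_contra hcon
    rw [not_nonempty_iff] at hcon
    have h1 := hsum 0
    rw [Finset.univ_eq_empty, Finset.sum_empty] at h1
    exact absurd h1 (hx0 0).ne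
  refine ⟨ι, hι, t, fun k => (b k 0).toNat, fun k i => (b k i.succ).toNat, hne, ht, fun k => ?_,
    fun k i => ?_, ?_, ?_, fun k => ?_, fun k j => ?_⟩
  · have := hbpos k 0
    change 1 ≤ (b k 0).toNat
    omega
  · have := hbpos k i.succ
    change 1 ≤ (b k i.succ).toNat
    omega
  · have h1 := hsum 0
    change _ = 1 / (m : ℝ) at h1
    rw [← h1]
    exact Finset.sum_congr rfl fun k _ => by rw [hbR]
  · intro i
    have h1 := hsum i.succ
    change _ = d i at h1
    rw [← h1]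
    exact Finset.sum_congr rfl fun k _ => by rw [hbR]
  · rw [htest _ _ fun i => Nat.cast_nonneg _]
    intro j
    have h1 := (hb k (Sum.inr (Sum.inl j))).1
    have h2 : (0 : ℝ) ≤ ∑ i, (nn (Sum.inr (Sum.inl j)) i : ℝ) * (b k i : ℝ) := by
      exact_mod_cast h1
    rw [hr (fun i => (b k i : ℝ)) j] at h2
    simp only [hbR]
    exact h2
  · have h1 := (hb k (Sum.inr (Sum.inr j))).1
    have h2 : (0 : ℝ) ≤ ∑ i, (nn (Sum.inr (Sum.inr j)) i : ℝ) * (b k i : ℝ) := by
      exact_mod_cast h1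
    rw [hr2 (fun i => (b k i : ℝ)) j] at h2
    have h3 : (K.adj D (b k 0).toNat fun i => (b k i.succ).toNat).deg j =
        b k 0 * K.deg j + ∑ i, b k i.succ * (D i).deg j := by
      change (((b k 0).toNat : ℕ) : ℤ) * K.deg j +
        ∑ i, (((b k i.succ).toNat : ℕ) : ℤ) * (D i).deg j = _
      rw [hbZ]
      congr 1
      exact Finset.sum_congr rfl fun i _ => by rw [hbZ]
    rw [h3]
    exact_mod_cast h2

theorem klt_deg (hK : IsLogPluricanonical K m ρ σ l (fun _ => 1) (fun _ => 0)) (hm : 1 ≤ m)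
    (hβ : ∀ i, IsCartier (D i) (β i) (κ i)) {d : Fin N → ℝ}
    (hn : IsNefClass (realClass K HK D HD (1 / m) d)) (j : Fin c) :
    (l j : ℝ) + (r j + 1) ≤ ∑ i, d i * κ i j := by
  have hm0 : (0 : ℝ) < m := by exact_mod_cast hm
  have h1 := hn.2 j
  have h2 := hK.deg j
  change 0 ≤ 1 / (m : ℝ) * K.deg j + ∑ i, d i * (D i).deg j at h1
  have h3 : (K.deg j : ℝ) = -(m * (l j + (r j + 1))) := by
    have h4 : K.deg j = -((m : ℤ) * (l j + (r j + 1))) := by
      push_cast at h2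
      linarith
    rw [h4]
    push_cast
    ring
  have h5 : ∑ i, d i * ((D i).deg j : ℝ) = ∑ i, d i * κ i j :=
    Finset.sum_congr rfl fun i _ => by rw [(hβ i).deg]; push_cast; rfl
  rw [h3, h5] at h1
  have h6 : 1 / (m : ℝ) * -(m * (l j + (r j + 1))) = -((l j : ℝ) + (r j + 1)) := by
    field_simp
  rw [h6] at h1
  linarith

/-- **The contraction.** -/
theorem contraction (hΓ : IsIsometryGroup Γ) (hρ : IsRamification Γ ρ σ l) (hm : 1 ≤ m)
    (hK : IsLogPluricanonical K m ρ σ l (fun _ => 1) (fun _ => 0)) (hHK : K.IsChernForm HK)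
    (hβ : ∀ i, IsCartier (D i) (β i) (κ i)) (hHD : ∀ i, (D i).IsChernForm (HD i))
    {d : Fin N → ℝ} (hd : ∀ i, 0 < d i) (hklt : IsKltReal ρ σ d β)
    (hn : IsNefClass (realClass K HK D HD (1 / m) d)) : IsContractionForm K D (1 / m) d := by
  classical
  obtain ⟨k₀, hk₀, t, a, b, hne, ht, ha, hb, hsa, hsb, hnef, hdeg⟩ :=
    exists_dec hΓ hρ hm hK hHK hβ hHD hd hn
  obtain ⟨q, t', hq, ht', hmix⟩ := exists_mix ht
  obtain ⟨a', ha'⟩ : ∃ a' : k₀ → ℕ, ∀ k, a' k = q * a k + ∑ l, a l := ⟨_, fun _ => rfl⟩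
  obtain ⟨b', hb'⟩ : ∃ b' : k₀ → Fin N → ℕ, ∀ k i, b' k i = q * b k i + ∑ l, b l i :=
    ⟨_, fun _ _ => rfl⟩
  have ha1 : ∀ k, 1 ≤ a' k := by
    intro k
    rw [ha']
    have := Nat.mul_le_mul hq (ha k)
    omega
  have hb1 : ∀ k i, 1 ≤ b' k i := by
    intro k i
    rw [hb']
    have := Nat.mul_le_mul hq (hb k i)
    omega
  -- the forms
  have hcls : ∀ k v, (Q47.MM.cls HK HD (a' k) (fun i => b' k i) v v).re =
      q * (Q47.MM.cls HK HD (a k) (fun i => b k i) v v).re +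
        ∑ l, (Q47.MM.cls HK HD (a l) (fun i => b l i) v v).re := by
    intro k v
    simp only [Q47.MM.cls_re, ha', hb']
    push_cast
    simp only [add_mul, Finset.sum_mul, mul_add, Finset.sum_add_distrib, Finset.mul_sum]
    have h1 : ∑ i, ∑ l, (b l i : ℝ) * (HD i v v).re = ∑ l, ∑ i, (b l i : ℝ) * (HD i v v).re :=
      Finset.sum_comm
    rw [h1]
    have h2 : ∑ i, (q : ℝ) * b k i * (HD i v v).re = ∑ i, (q : ℝ) * (b k i * (HD i v v).re) :=
      Finset.sum_congr rfl fun i _ => by ring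
    rw [h2]
    ring
  have hdegs : ∀ k j, (K.adj D (a' k) (b' k)).deg j =
      q * (K.adj D (a k) (b k)).deg j + ∑ l, (K.adj D (a l) (b l)).deg j := by
    intro k j
    change (a' k : ℤ) * K.deg j + ∑ i, (b' k i : ℤ) * (D i).deg j =
      q * (a k * K.deg j + ∑ i, b k i * (D i).deg j) +
        ∑ l, ((a l : ℤ) * K.deg j + ∑ i, b l i * (D i).deg j)
    simp only [ha', hb']
    push_cast
    simp only [add_mul, Finset.sum_mul, mul_add, Finset.sum_add_distrib, Finset.mul_sum]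
    have h1 : ∑ i, ∑ l, (b l i : ℤ) * (D i).deg j = ∑ l, ∑ i, (b l i : ℤ) * (D i).deg j :=
      Finset.sum_comm
    rw [h1]
    have h2 : ∑ i, (q : ℤ) * b k i * (D i).deg j = ∑ i, (q : ℤ) * (b k i * (D i).deg j) :=
      Finset.sum_congr rfl fun i _ => by ring
    rw [h2]
    ring
  have hnef' : ∀ k, IsNefForm (Q47.MM.cls HK HD (a' k) fun i => b' k i) := by
    intro k v
    rw [hcls]
    exact add_nonneg (mul_nonneg (Nat.cast_nonneg _) (hnef k v))
      (Finset.sum_nonneg fun l _ => hnef l v)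
  have hdeg' : ∀ k j, 0 ≤ (K.adj D (a' k) (b' k)).deg j := by
    intro k j
    rw [hdegs]
    exact add_nonneg (mul_nonneg (Int.natCast_nonneg _) (hdeg k j))
      (Finset.sum_nonneg fun l _ => hdeg l j)
  have hzero : ∀ k v, (Q47.MM.cls HK HD (a' k) (fun i => b' k i) v v).re = 0 ↔
      ∀ l, (Q47.MM.cls HK HD (a l) (fun i => b l i) v v).re = 0 := by
    intro k v
    rw [hcls]
    constructor
    · intro h l
      have h1 : 0 ≤ (q : ℝ) * (Q47.MM.cls HK HD (a k) (fun i => b k i) v v).re :=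
        mul_nonneg (Nat.cast_nonneg _) (hnef k v)
      have h2 : 0 ≤ ∑ l, (Q47.MM.cls HK HD (a l) (fun i => b l i) v v).re :=
        Finset.sum_nonneg fun l _ => hnef l v
      have h3 : ∑ l, (Q47.MM.cls HK HD (a l) (fun i => b l i) v v).re = 0 := by linarith
      exact (Finset.sum_eq_zero_iff_of_nonneg fun l _ => hnef l v).1 h3 l (Finset.mem_univ l)
    · intro h
      rw [h k, Finset.sum_eq_zero fun l _ => h l]
      ring
  have hzero' : ∀ k j, (K.adj D (a' k) (b' k)).deg j = 0 ↔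
      ∀ l, (K.adj D (a l) (b l)).deg j = 0 := by
    intro k j
    rw [hdegs]
    constructor
    · intro h l
      have h1 : 0 ≤ (q : ℤ) * (K.adj D (a k) (b k)).deg j :=
        mul_nonneg (Int.natCast_nonneg _) (hdeg k j)
      have h2 : 0 ≤ ∑ l, (K.adj D (a l) (b l)).deg j := Finset.sum_nonneg fun l _ => hdeg l j
      have h3 : ∑ l, (K.adj D (a l) (b l)).deg j = 0 := by linarith
      exact (Finset.sum_eq_zero_iff_of_nonneg fun l _ => hdeg l j).1 h3 l (Finset.mem_univ l)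
    · intro h
      rw [h k, Finset.sum_eq_zero fun l _ => h l]
      ring
  have hchern := fun k => chern_adj hHK hHD (a' k) (b' k)
  have hHerm : ∀ k, IsHermitian (Q47.MM.cls HK HD (a' k) fun i => b' k i) := fun k => (hchern k).1
  have hkerk : ∀ k v, v ∈ ker (hHerm k) ↔
      ∀ l, (Q47.MM.cls HK HD (a l) (fun i => b l i) v v).re = 0 := by
    intro k v
    rw [← hzero k v]
    constructor
    · intro h
      rw [h v, Complex.zero_re]
    · intro h w
      exact h_isotropic (hHerm k) (hnef' k) v h w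
  -- semiample
  have hrig : ∀ k, IR.Rigid σ (fun v => ∏ i, β i v ^ b' k i) := fun k =>
    rigid_of_klt hρ (fun i => (hβ i).effective) hklt (klt_deg hK hm hβ hn) (hb1 k)
  have hsemi : ∀ k, (K.adj D (a' k) (b' k)).IsSemiample := fun k =>
    semiample_of_rigid hΓ hρ
      (IR.eff_prod (fun i => eff_conv (hβ i).effective) (b' k) Finset.univ)
      (plu_adj hK hβ _ _) (hrig k) (hchern k) ⟨hnef' k, hdeg' k⟩
  choose M hM hsec using hsemi
  -- the projection
  obtain ⟨k₁⟩ := hne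
  obtain ⟨n', p, hp, hpker, hple, hpdec⟩ := exists_proj (ker (hHerm k₁))
  have hpk : ∀ k v, p v = 0 ↔ v ∈ ker (hHerm k) := by
    intro k v
    rw [hpker, hkerk, hkerk]
  -- the factors
  let J : Type := {j : Fin c // (K.adj D (a' k₁) (b' k₁)).deg j ≠ 0}
  let e : Fin (Fintype.card J) ≃ J := (Fintype.equivFin J).symm
  let ι : Fin (Fintype.card J) → Fin c := fun j => (e j).1
  have hι : Function.Injective ι := fun j j' h => e.injective (Subtype.ext h)
  have hιr : ∀ j, j ∈ Set.range ι ↔ (K.adj D (a' k₁) (b' k₁)).deg j ≠ 0 := by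
    intro j
    constructor
    · rintro ⟨j', rfl⟩
      exact (e j').2
    · intro h
      exact ⟨e.symm ⟨j, h⟩, by
        change (e (e.symm ⟨j, h⟩)).1 = j
        rw [e.apply_symm_apply]⟩
  obtain ⟨hHf, F, hF, hFe⟩ := hchern k₁
  have hpot1 : Pot (K.adj D (a' k₁) (b' k₁)) (Q47.MM.cls HK HD (a' k₁) fun i => b' k₁ i) F :=
    ⟨hF, hFe⟩
  have hsit : Sit' Γ ι p := by
    refine ⟨hΓ, hι, hp, hple, fun v => ?_, fun g hg v hv => ?_, fun g hg π hπ j => ?_,
      fun v hv => ?_⟩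
    · obtain ⟨u, hu, h⟩ := hpdec v
      exact ⟨u, (hpker u).2 hu, h⟩
    · rw [hpker] at hv ⊢
      exact pot_ker (hHerm k₁) hpot1 hg hv
    · rw [hιr, hιr, (K.adj D (a' k₁) (b' k₁)).perm g hg π hπ]
    · rw [hpker] at hv
      have h1 := pure_span hΓ hρ
        (IR.eff_prod (fun i => eff_conv (hβ i).effective) (b' k₁) Finset.univ)
        (plu_adj hK hβ (a' k₁) (b' k₁)) (hrig k₁) (hchern k₁) (hnef' k₁) v hv
      refine Submodule.span_mono ?_ h1
      rintro x ⟨hx, hx'⟩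
      exact ⟨(hpker x).2 hx, hx'⟩
  refine ⟨n', Fintype.card J, ι, quo Γ ι p, p, hsit.contraction, ?_⟩
  obtain ⟨s, hs⟩ := p.exists_rightInverse_of_surjective (LinearMap.range_eq_top.2 hp)
  have hs' : ∀ w, p (s w) = w := fun w => LinearMap.congr_fun hs w
  have hB : ∀ k, ∃ A : LineBundle (quo Γ ι p), A.IsAmple ∧
      IsPullback p (K.adj D (a' k) (b' k)) (M k) A := by
    intro k
    obtain ⟨-, f, hf, hfe⟩ := hchern k
    have B : BSit Γ ι p (K.adj D (a' k) (b' k)) (Q47.MM.cls HK HD (a' k) fun i => b' k i)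
        (hHerm k) f (M k) := by
      refine ⟨hsit, ⟨hf, hfe⟩, hnef' k, hpk k, fun j hj => ?_, fun j => ?_, hM k, hsec k⟩
      · rw [hιr, not_not, hzero'] at hj
        rw [hzero']
        exact hj
      · have h1 : (K.adj D (a' k₁) (b' k₁)).deg (ι j) ≠ 0 := (hιr _).1 ⟨j, rfl⟩
        refine lt_of_le_of_ne (hdeg' k _) fun h0 => h1 ?_
        rw [hzero']
        exact (hzero' k (ι j)).1 h0.symm
    exact ⟨bun B s hs', bun_ample B s hs', bun_pullback B s hs'⟩
  choose A hA1 hA2 using hB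
  refine ⟨k₀, hk₀, t', a', b', M, A, ht', ha1, hM, ?_, fun i => ?_, fun k => ⟨hA1 k, hA2 k⟩⟩
  · have h1 := hmix fun k => (a k : ℝ)
    rw [hsa] at h1
    rw [← h1]
    refine Finset.sum_congr rfl fun k _ => ?_
    rw [ha']
    push_cast
    rfl
  · have h1 := hmix fun k => (b k i : ℝ)
    rw [hsb] at h1
    rw [← h1]
    refine Finset.sum_congr rfl fun k _ => ?_
    rw [hb']
    push_cast
    rfl

end Pool.Agent.H896.IG
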