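import Pool.Agent.H896.IQ.Stmt

/-!
# Orthogonal projections in coordinates, induced linear maps
-/

set_option autoImplicit false

namespace Pool.Agent.H896.IG

open Pool.Agent.T2H08.FB

/-- orthogonal projection in coordinates -/
theorem exists_proj {n : ℕ} (U : Submodule ℂ (Fin n → ℂ)) :
    ∃ (n' : ℕ) (p : (Fin n → ℂ) →ₗ[ℂ] (Fin n' → ℂ)), Function.Surjective p ∧
      (∀ v, p v = 0 ↔ v ∈ U) ∧ (∀ v, ∑ i, ‖p v i‖ ^ 2 ≤ ∑ i, ‖v i‖ ^ 2) ∧
      ∀ v, ∃ u ∈ U, ∑ i, ‖v i - u i‖ ^ 2 = ∑ i, ‖p v i‖ ^ 2 := by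
  classical
  let e : (Fin n → ℂ) ≃ₗ[ℂ] EuclideanSpace ℂ (Fin n) :=
    (WithLp.linearEquiv 2 ℂ (Fin n → ℂ)).symm
  let U' : Submodule ℂ (EuclideanSpace ℂ (Fin n)) := U.map (e : (Fin n → ℂ) →ₗ[ℂ] _)
  let K : Submodule ℂ (EuclideanSpace ℂ (Fin n)) := U'ᗮ
  let b := stdOrthonormalBasis ℂ K
  let e' : EuclideanSpace ℂ (Fin (Module.finrank ℂ K)) ≃ₗ[ℂ] (Fin (Module.finrank ℂ K) → ℂ) :=
    WithLp.linearEquiv 2 ℂ (Fin (Module.finrank ℂ K) → ℂ)
  let q : EuclideanSpace ℂ (Fin n) →ₗ[ℂ] K := K.orthogonalProjectionOnto.toLinearMap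
  let p : (Fin n → ℂ) →ₗ[ℂ] (Fin (Module.finrank ℂ K) → ℂ) :=
    (e' : EuclideanSpace ℂ (Fin (Module.finrank ℂ K)) →ₗ[ℂ] _) ∘ₗ
      (b.repr.toLinearEquiv : K →ₗ[ℂ] _) ∘ₗ q ∘ₗ (e : (Fin n → ℂ) →ₗ[ℂ] _)
  have hp : ∀ v, p v = e' (b.repr (q (e v))) := fun v => rfl
  have hq : ∀ x, q x = K.orthogonalProjectionOnto x := fun x => rfl
  have hn : ∀ v : Fin n → ℂ, ‖e v‖ ^ 2 = ∑ i, ‖v i‖ ^ 2 := fun v => by
    rw [EuclideanSpace.norm_sq_eq]
    rfl
  have hn' : ∀ x : EuclideanSpace ℂ (Fin (Module.finrank ℂ K)), ∑ i, ‖e' x i‖ ^ 2 = ‖x‖ ^ 2 :=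
    fun x => by
      rw [EuclideanSpace.norm_sq_eq]
      rfl
  have hpn : ∀ v, ∑ i, ‖p v i‖ ^ 2 = ‖q (e v)‖ ^ 2 := fun v => by
    rw [hp, hn', b.repr.norm_map]
  refine ⟨_, p, ?_, ?_, ?_, ?_⟩
  · intro y
    refine ⟨e.symm ((b.repr.symm (e'.symm y) : K) : EuclideanSpace ℂ (Fin n)), ?_⟩
    rw [hp, e.apply_symm_apply, hq, Submodule.orthogonalProjectionOnto_mem_subspace_eq_self,
      LinearIsometryEquiv.apply_symm_apply, LinearEquiv.apply_symm_apply]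
  · intro v
    have h1 : p v = 0 ↔ q (e v) = 0 := by
      rw [hp]
      constructor
      · intro h
        have h2 := (LinearEquiv.map_eq_zero_iff e').1 h
        exact (LinearIsometryEquiv.map_eq_zero_iff b.repr).1 h2
      · intro h
        rw [h, map_zero, map_zero]
    rw [h1, hq, Submodule.orthogonalProjectionOnto_eq_zero_iff]
    have h2 : Kᗮ = U' := Submodule.orthogonal_orthogonal U'
    rw [h2]
    constructor
    · rintro ⟨u, hu, hue⟩
      have h3 : u = v := e.injective hue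
      rwa [← h3]
    · intro h
      exact ⟨v, h, rfl⟩
  · intro v
    rw [hpn, ← hn, hq]
    have h1 := K.norm_orthogonalProjectionOnto_apply_le (e v)
    have h2 := norm_nonneg (K.orthogonalProjectionOnto (e v))
    nlinarith
  · intro v
    have h1 : e v - K.starProjection (e v) ∈ Kᗮ := K.sub_starProjection_mem_orthogonal (e v)
    have h2 : Kᗮ = U' := Submodule.orthogonal_orthogonal U'
    rw [h2] at h1
    obtain ⟨u, hu, hue⟩ := h1
    refine ⟨u, hu, ?_⟩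
    rw [hpn, hq]
    have h3 : e (v - u) = K.starProjection (e v) := by
      rw [map_sub]
      change e v - (e : (Fin n → ℂ) →ₗ[ℂ] _) u = _
      rw [hue, sub_sub_cancel]
    have h4 := hn (v - u)
    rw [h3] at h4
    change ∑ i, ‖(v - u) i‖ ^ 2 = _
    rw [← h4, Submodule.starProjection_apply]
    rfl

/-- induced linear map -/
theorem exists_ind {W W' : Type*} [AddCommGroup W] [Module ℂ W] [AddCommGroup W'] [Module ℂ W']
    (q : W →ₗ[ℂ] W') (hq : Function.Surjective q) (A : W ≃ₗ[ℂ] W)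
    (h1 : ∀ z, q z = 0 → q (A z) = 0) (h2 : ∀ z, q z = 0 → q (A.symm z) = 0) :
    ∃ B : W' ≃ₗ[ℂ] W', ∀ z, B (q z) = q (A z) := by
  obtain ⟨s, hs⟩ := q.exists_rightInverse_of_surjective (LinearMap.range_eq_top.2 hq)
  have hs' : ∀ w, q (s w) = w := fun w => LinearMap.congr_fun hs w
  have hA : ∀ z, q (A (s (q z))) = q (A z) := by
    intro z
    rw [← sub_eq_zero, ← map_sub, ← map_sub]
    apply h1
    rw [map_sub, hs', sub_self]
  have hA' : ∀ z, q (A.symm (s (q z))) = q (A.symm z) := by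
    intro z
    rw [← sub_eq_zero, ← map_sub, ← map_sub]
    apply h2
    rw [map_sub, hs', sub_self]
  refine ⟨LinearEquiv.ofLinearMap (q ∘ₗ (A : W →ₗ[ℂ] W) ∘ₗ s) (q ∘ₗ (A.symm : W →ₗ[ℂ] W) ∘ₗ s)
    ?_ ?_, fun z => hA z⟩
  · refine LinearMap.ext fun w => ?_
    change q (A (s (q (A.symm (s w))))) = w
    rw [hA, LinearEquiv.apply_symm_apply, hs']
  · refine LinearMap.ext fun w => ?_
    change q (A.symm (s (q (A (s w))))) = w
    rw [hA', LinearEquiv.symm_apply_apply, hs']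

end Pool.Agent.H896.IG
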