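import Pool.Agent.H896.GN.Pure
import Pool.Agent.H896.GN.Inv

/-!
# The pure translations along the kernel
-/

set_option autoImplicit false

namespace Pool.Agent.H896.IR

open Pool.Agent.T2H08.FQ Pool.Agent.W594.SYZ2 Pool.Agent.W594.SYZ2.TQ Pool.Agent.TH735.AQ
  MvPolynomial MeasureTheory Pool.Agent.H896.IQ

variable {n c : ℕ} {r : Fin c → ℕ}

theorem pure_of_root {Γ : Subgroup (Grp n r)} (hΓ : IsFlatQuotient Γ)
    {K : Submodule ℂ (Fin n → ℂ)} {N : ℕ}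
    (hN : ∀ b (hb : b ∈ latt (GD Γ)), b ∈ K → ∀ j (i i' : Fin (r j + 1)),
      chiOf (tr b hb) ⟨j, i⟩ ^ N = chiOf (tr b hb) ⟨j, i'⟩ ^ N)
    {b : Fin n → ℂ} (hb : b ∈ latt (GD Γ)) (hbK : b ∈ K) :
    ((AffineEquiv.constVAdd ℂ (Fin n → ℂ) (N • b), 1) : Grp n r) ∈ Γ := by
  obtain ⟨χ, hχ⟩ : ∃ χ, χ = chiOf (tr b hb) := ⟨_, rfl⟩
  have h1 : ((AffineEquiv.constVAdd ℂ (Fin n → ℂ) b, diag χ) : Grp n r) ∈ Γ := by
    rw [hχ]
    exact (lft (tr b hb)).2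
  obtain ⟨μ, hμ⟩ : ∃ μ : Fin c → ℂˣ, ∀ j, μ j = χ ⟨j, 0⟩ ^ N := ⟨_, fun _ => rfl⟩
  have hμ1 : ∀ j, ‖((μ⁻¹) j : ℂ)‖ = 1 := by
    intro j
    rw [Pi.inv_apply, Units.val_inv_eq_inv_val, norm_inv, hμ, Units.val_pow_eq_pow_val, norm_pow,
      norm_chi hΓ h1, one_pow, inv_one]
  have h3 : ((AffineEquiv.constVAdd ℂ (Fin n → ℂ) (N • b), 1) : Grp n r) =
      ((AffineEquiv.constVAdd ℂ (Fin n → ℂ) b, diag χ) : Grp n r) ^ N * (1, scal μ⁻¹) := by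
    refine Prod.ext ?_ ?_
    · rw [Prod.fst_mul, Prod.pow_fst, constVAdd_pow, mul_one]
    · rw [Prod.snd_mul, Prod.pow_snd, ← map_pow]
      refine LinearEquiv.ext fun z => funext fun s => ?_
      change z s = (((χ ^ N) s : ℂˣ) : ℂ) * (((μ⁻¹) s.1 : ℂˣ) * z s)
      obtain ⟨j, i⟩ := s
      rw [Pi.pow_apply, Pi.inv_apply, ← mul_assoc, ← Units.val_mul, hμ, hχ,
        hN b hb hbK j i 0, mul_inv_cancel, Units.val_one, one_mul]
  rw [h3]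
  exact Γ.mul_mem (Γ.pow_mem h1 N) (hΓ.scalar _ hμ1)

theorem conj_mem {Γ : Subgroup (Grp n r)} {b : Fin n → ℂ} {χ : Co r → ℂˣ}
    (h1 : ((AffineEquiv.constVAdd ℂ (Fin n → ℂ) b, diag χ) : Grp n r) ∈ Γ) (g : Lin (GD Γ)) :
    ((AffineEquiv.constVAdd ℂ (Fin n → ℂ) (g.1 b), diag χ) : Grp n r) ∈ Γ := by
  obtain ⟨g, γ, hγ, rfl⟩ := g
  obtain ⟨ξ, hξ⟩ := mem_GD.1 hγ
  have h2 : ((AffineEquiv.constVAdd ℂ (Fin n → ℂ) (γ.linear b), diag χ) : Grp n r) =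
      ((γ, diag ξ) : Grp n r) * (AffineEquiv.constVAdd ℂ (Fin n → ℂ) b, diag χ) *
        ((γ, diag ξ) : Grp n r)⁻¹ := by
    refine Prod.ext ?_ ?_
    · refine AffineEquiv.ext fun v => ?_
      change γ.linear b + v = γ (b + γ.symm v)
      rw [add_comm b, act_add, AffineEquiv.apply_symm_apply, add_comm]
    · change diag χ = diag ξ * diag χ * (diag ξ)⁻¹
      rw [← map_mul, ← map_inv, ← map_mul, mul_comm ξ, mul_inv_cancel_right]
  change ((AffineEquiv.constVAdd ℂ (Fin n → ℂ) (γ.linear b), diag χ) : Grp n r) ∈ Γ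
  rw [h2]
  exact Γ.mul_mem (Γ.mul_mem hξ h1) (Γ.inv_mem hξ)

theorem conj_sum {Γ : Subgroup (Grp n r)} {b : Fin n → ℂ} {χ : Co r → ℂˣ}
    (h1 : ((AffineEquiv.constVAdd ℂ (Fin n → ℂ) b, diag χ) : Grp n r) ∈ Γ)
    (s : Finset (Lin (GD Γ))) :
    ((AffineEquiv.constVAdd ℂ (Fin n → ℂ) (∑ g ∈ s, g.1 b), diag (χ ^ s.card)) : Grp n r) ∈ Γ := by
  classical
  induction s using Finset.induction_on with
  | empty =>
    rw [Finset.sum_empty, Finset.card_empty, pow_zero, map_one]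
    have h2 : ((AffineEquiv.constVAdd ℂ (Fin n → ℂ) 0, 1) : Grp n r) = 1 := by
      refine Prod.ext (AffineEquiv.ext fun v => ?_) rfl
      change 0 + v = v
      rw [zero_add]
    rw [h2]
    exact Γ.one_mem
  | insert g s hg ih =>
    rw [Finset.sum_insert hg, Finset.card_insert_of_notMem hg]
    have h2 : ((AffineEquiv.constVAdd ℂ (Fin n → ℂ) (g.1 b + ∑ g ∈ s, g.1 b),
        diag (χ ^ (s.card + 1))) : Grp n r) =
        (AffineEquiv.constVAdd ℂ (Fin n → ℂ) (g.1 b), diag χ) *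
          (AffineEquiv.constVAdd ℂ (Fin n → ℂ) (∑ g ∈ s, g.1 b), diag (χ ^ s.card)) := by
      refine Prod.ext (AffineEquiv.ext fun v => ?_) ?_
      · change g.1 b + (∑ g ∈ s, g.1 b) + v = g.1 b + ((∑ g ∈ s, g.1 b) + v)
        rw [add_assoc]
      · change diag (χ ^ (s.card + 1)) = diag χ * diag (χ ^ s.card)
        rw [← map_mul, pow_succ']
    rw [h2]
    exact Γ.mul_mem (conj_mem h1 g) ih

/-- elements which act trivially on `V` are torsion modulo scalars -/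
theorem torsion_of_kernel {Γ : Subgroup (Grp n r)} (hΓ : IsUQ Γ)
    {A : (Co r → ℂ) ≃ₗ[ℂ] (Co r → ℂ)} (hA : ((1, A) : Grp n r) ∈ Γ) :
    ∃ (M : ℕ) (μ : Fin c → ℂˣ), 1 ≤ M ∧ A ^ M = scal μ := by
  classical
  obtain ⟨S, hS, h⟩ := hΓ.kernel
  have hpow : ∀ k : ℕ, ((1, A ^ k) : Grp n r) ∈ Γ := by
    intro k
    have h1 : ((1, A ^ k) : Grp n r) = ((1, A) : Grp n r) ^ k :=
      Prod.ext (one_pow k).symm rfl
    rw [h1]
    exact Γ.pow_mem hA k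
  choose φ hφ μ hμ using fun k => h _ (hpow k) rfl
  have : Finite S := hS
  obtain ⟨k, k', hkk, heq⟩ := Finite.exists_ne_map_eq_of_infinite
    (fun k : ℕ => (⟨φ k, hφ k⟩ : S))
  have heq' : φ k = φ k' := congrArg Subtype.val heq
  have key : ∀ k k' : ℕ, k < k' → φ k = φ k' →
      ∃ (M : ℕ) (μ : Fin c → ℂˣ), 1 ≤ M ∧ A ^ M = scal μ := by
    intro k k' hk he
    refine ⟨k' - k, μ k' * (μ k)⁻¹, by omega, ?_⟩
    have h1 : A ^ k' = A ^ (k' - k) * A ^ k := by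
      rw [← pow_add]
      congr 1
      omega
    have h2 := hμ k'
    have h3 := hμ k
    change A ^ k' = scal (μ k') * (φ k').2 at h2
    change A ^ k = scal (μ k) * (φ k).2 at h3
    have h4 : A ^ (k' - k) = A ^ k' * (A ^ k)⁻¹ := by rw [h1, mul_inv_cancel_right]
    rw [h4, h2, h3, he, mul_inv_rev, ← mul_assoc, mul_inv_cancel_right, map_mul, map_inv]
  rcases lt_or_gt_of_ne hkk with h1 | h1
  · exact key k k' h1 heq'
  · exact key k' k h1 heq'.symm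

theorem conj_scal {P : (Co r → ℂ) ≃ₗ[ℂ] (Co r → ℂ)} (hP : BU (lm P)) (μ : Fin c → ℂˣ) :
    P⁻¹ * scal μ * P = scal μ := by
  refine LinearEquiv.ext fun z => ?_
  change P.symm (scal μ (P z)) = scal μ z
  have h1 := hP.scal μ z
  change P (scal μ z) = scal μ (P z) at h1
  rw [← h1]
  exact P.symm_apply_apply _

/-- All the lattice vectors in the kernel have multiples which are pure. -/
theorem pure_all {Γ : Subgroup (Grp n r)} (hΓ : IsUQ Γ)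
    {P : (Co r → ℂ) ≃ₗ[ℂ] (Co r → ℂ)} (hP : BU (lm P)) (hQ : IsFlatQuotient (chg P Γ))
    {K : Submodule ℂ (Fin n → ℂ)} {N : ℕ} (hN1 : 1 ≤ N)
    (hN : ∀ b (hb : b ∈ latt (GD (chg P Γ))), b ∈ K → ∀ j (i i' : Fin (r j + 1)),
      chiOf (tr b hb) ⟨j, i⟩ ^ N = chiOf (tr b hb) ⟨j, i'⟩ ^ N)
    (s : Finset (Lin (GD (chg P Γ)))) (hs : 1 ≤ s.card) {b : Fin n → ℂ}
    (hb : b ∈ latt (GD (chg P Γ))) (hbs : ∑ g ∈ s, g.1 b ∈ latt (GD (chg P Γ)))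
    (hbK : ∑ g ∈ s, g.1 b ∈ K) :
    ∃ M : ℕ, 1 ≤ M ∧ ((AffineEquiv.constVAdd ℂ (Fin n → ℂ) (M • b), 1) : Grp n r) ∈ Γ := by
  classical
  obtain ⟨χ, hχ⟩ : ∃ χ, χ = chiOf (tr b hb) := ⟨_, rfl⟩
  have h1 : ((AffineEquiv.constVAdd ℂ (Fin n → ℂ) b, diag χ) : Grp n r) ∈ chg P Γ := by
    rw [hχ]
    exact (lft (tr b hb)).2
  have h2 := conj_sum h1 s
  have h3 := pure_of_root hQ hN hbs hbK
  -- the element over `0`
  have h4 : ((1, diag (χ ^ (s.card * N))) : Grp n r) ∈ chg P Γ := by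
    have h5 : ((1, diag (χ ^ (s.card * N))) : Grp n r) =
        ((AffineEquiv.constVAdd ℂ (Fin n → ℂ) (∑ g ∈ s, g.1 b), diag (χ ^ s.card)) :
          Grp n r) ^ N * ((AffineEquiv.constVAdd ℂ (Fin n → ℂ) (N • ∑ g ∈ s, g.1 b), 1) :
          Grp n r)⁻¹ := by
      refine Prod.ext ?_ ?_
      · rw [Prod.fst_mul, Prod.pow_fst, constVAdd_pow, Prod.fst_inv, mul_inv_cancel]
      · rw [Prod.snd_mul, Prod.pow_snd, Prod.snd_inv, inv_one, mul_one, ← map_pow, ← pow_mul]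
    rw [h5]
    exact Subgroup.mul_mem _ (Subgroup.pow_mem _ h2 N) (Subgroup.inv_mem _ h3)
  have h6 : ((1, P * diag (χ ^ (s.card * N)) * P⁻¹) : Grp n r) ∈ Γ := h4
  obtain ⟨M, μ, hM, hμ⟩ := torsion_of_kernel hΓ h6
  have h7 : diag (χ ^ (s.card * N * M)) = scal μ := by
    have h8 : (P * diag (χ ^ (s.card * N)) * P⁻¹) ^ M = P * diag (χ ^ (s.card * N)) ^ M * P⁻¹ := by
      rw [conj_pow]
    rw [h8, ← map_pow, ← pow_mul] at hμ
    rw [← conj_scal hP μ, ← hμ]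
    group
  have hμ1 : ∀ j, ‖((μ⁻¹) j : ℂ)‖ = 1 := by
    intro j
    have h8 : ((χ ^ (s.card * N * M)) ⟨j, 0⟩ : ℂ) = μ j := by
      have h9 := congrFun (LinearEquiv.congr_fun h7 (fun _ => 1)) ⟨j, 0⟩
      change (((χ ^ (s.card * N * M)) ⟨j, 0⟩ : ℂˣ) : ℂ) * 1 = (μ j : ℂ) * 1 at h9
      rwa [mul_one, mul_one] at h9
    rw [Pi.inv_apply, Units.val_inv_eq_inv_val, norm_inv, ← h8, Pi.pow_apply,
      Units.val_pow_eq_pow_val, norm_pow, norm_chi hQ h1, one_pow, inv_one]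
  refine ⟨s.card * N * M, Nat.mul_pos (Nat.mul_pos hs hN1) hM, ?_⟩
  have h9 : ((AffineEquiv.constVAdd ℂ (Fin n → ℂ) ((s.card * N * M) • b), 1) : Grp n r) ∈
      chg P Γ := by
    have h10 : ((AffineEquiv.constVAdd ℂ (Fin n → ℂ) ((s.card * N * M) • b), 1) : Grp n r) =
        ((AffineEquiv.constVAdd ℂ (Fin n → ℂ) b, diag χ) : Grp n r) ^ (s.card * N * M) *
          (1, scal μ⁻¹) := by
      refine Prod.ext ?_ ?_
      · rw [Prod.fst_mul, Prod.pow_fst, constVAdd_pow, mul_one]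
      · rw [Prod.snd_mul, Prod.pow_snd, ← map_pow, h7, ← map_mul, mul_inv_cancel, map_one]
    rw [h10]
    exact Subgroup.mul_mem _ (Subgroup.pow_mem _ h1 _) (hQ.scalar _ hμ1)
  have h11 : ((AffineEquiv.constVAdd ℂ (Fin n → ℂ) ((s.card * N * M) • b), P * 1 * P⁻¹) :
      Grp n r) ∈ Γ := h9
  rw [mul_one, mul_inv_cancel] at h11
  exact h11

/-- The lattice vectors in the kernel of a nef form span it. -/
theorem span_latt_ker {V : Type*} [NormedAddCommGroup V] [NormedSpace ℂ V] [FiniteDimensional ℂ V]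
    {G : Subgroup (V ≃ᵃ[ℂ] V)} {M : Pool.Agent.W594.SYZ2.LineBundle G} {H : V → V → ℂ} {f : V → ℂ}
    (hG : IsTorusQuotient G) (hH : IsHermitian H) (hpot : IsPot M H f)
    (hn : IsNefForm H) (x : V) (hx : x ∈ ker hH) :
    x ∈ Submodule.span ℝ {b | b ∈ latt G ∧ b ∈ ker hH} := by
  classical
  obtain ⟨k, P, -, -, n, Δ, π, hker, hfib, -⟩ := numerical hG ⟨hH, f, hpot.1, hpot.2⟩ hn
  have : FiniteDimensional ℝ V := FiniteDimensional.complexToReal V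
  let T : AddSubgroup (Fin n → ℂ) := (latt G).map π.toAddMonoidHom
  have hT : (T : Set (Fin n → ℂ)) ⊆ (latt Δ : Set (Fin n → ℂ)) := by
    rintro _ ⟨b, hb, rfl⟩
    obtain ⟨δ, hδ, h⟩ := hfib.maps _ (mem_latt.1 hb)
    change AffineEquiv.constVAdd ℂ (Fin n → ℂ) (π b) ∈ Δ
    have h1 : AffineEquiv.constVAdd ℂ (Fin n → ℂ) (π b) = δ := by
      apply AffineEquiv.ext
      intro w
      obtain ⟨v, rfl⟩ := hfib.surj w
      rw [h v]
      change π b + π v = π (b + v)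
      rw [map_add]
    rw [h1]
    exact hδ
  have hTd : DiscreteTopology T := by
    have h1 : DiscreteTopology (latt Δ : Set (Fin n → ℂ)) := hfib.base.discrete
    exact DiscreteTopology.of_subset h1 hT
  have hsp := span_ker (V := V) (W := Fin n → ℂ) (latt G) hG.discrete hG.span_top T hTd
    (π.restrictScalars ℝ) hfib.surj (fun w => Iff.rfl)
  have h2 : x ∈ LinearMap.ker (π.restrictScalars ℝ) := (hker x).2 hx
  rw [← hsp] at h2
  refine Submodule.span_mono ?_ h2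
  rintro b ⟨hb, hb0⟩
  exact ⟨hb, (hker b).1 hb0⟩

/-- **The pure translations span the kernel.** -/
theorem pure_span_uq {Γ : Subgroup (Grp n r)} (hΓ : IsUQ Γ)
    {A : LineBundle Γ} {ρ : (Fin n → ℂ) → ℂ} {σ : MvPolynomial (Co r) ℂ} {l k : Fin c → ℕ}
    {β : (Fin n → ℂ) → MvPolynomial (Co r) ℂ} {m : ℕ} {HA : (Fin n → ℂ) → (Fin n → ℂ) → ℂ}
    {f : (Fin n → ℂ) → ℂ}
    (hρ : IsRamification Γ ρ σ l) (hβ : IsEffective β k)
    (hA : IsLogPluricanonical A m ρ σ l β k) (hrig : Rigid σ β)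
    (hH : IsHermitian HA) (hf : Differentiable ℂ f)
    (hpot : ∀ (g : Γ) (v : Fin n → ℂ), ‖A.e g v‖ ^ 2 =
      Real.exp (Real.pi * (HA ((g : Grp n r).1 v) ((g : Grp n r).1 v)).re
        + 2 * (f ((g : Grp n r).1 v)).re - (Real.pi * (HA v v).re + 2 * (f v).re)))
    (hn : IsNefForm HA) (x : Fin n → ℂ) (hx : x ∈ ker hH) :
    x ∈ Submodule.span ℝ {b | b ∈ ker hH ∧
      ((AffineEquiv.constVAdd ℂ (Fin n → ℂ) b, 1) : Grp n r) ∈ Γ} := by
  classical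
  obtain ⟨P, hP, hQ⟩ := exists_flat hΓ
  have hβ' := eff_chg hP hβ
  have hρ' := ram_chg hP hρ
  have hA' := plu_chg hP hA
  have hPA : ∀ ι : ∀ j, Fin (r j + 1), IsPot (secL (lbc hP A) ι) HA f :=
    secL_chern hQ hf (fun g v => hpot ⟨cj P g, g.2⟩ v)
  have hG := torus_GD hQ
  obtain ⟨N, hN1, hN⟩ := coord_root hQ hρ' hβ' hA' hH (K := KN (GD (chg P Γ)) (ker hH))
    (fun x hx => hx.1) (span_KN hG hH (hPA fun _ => 0) hn)
    (fun v₀ hv x hx => not_onMirror' GV_le hH (hPA fun _ => 0) hv hx)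
    (exists_N' hβ' hρ'.homog hρ'.ne_zero (hrig P hP)) (fun _ => 0) (hPA fun _ => 0)
  have := finite_Lin hG
  have : Fintype (Lin (GD (chg P Γ))) := Fintype.ofFinite _
  let Ns : Finset (Lin (GD (chg P Γ))) :=
    Finset.univ.filter (· ∈ NK (GD (chg P Γ)) (ker hH))
  have hNs : 1 ≤ Ns.card := Finset.card_pos.2 ⟨1, by
    rw [Finset.mem_filter]
    exact ⟨Finset.mem_univ _, (NK (GD (chg P Γ)) (ker hH)).one_mem⟩⟩
  have h1 := span_latt_ker hG hH (hPA fun _ => 0) hn x hx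
  refine Submodule.span_le.2 ?_ h1
  rintro b ⟨hb, hbK⟩
  obtain ⟨h2, h3, -⟩ := chi_sum' hH (hPA fun _ => 0) hb hbK Ns
  obtain ⟨M, hM, h4⟩ := pure_all hΓ hP hQ hN1 hN Ns hNs hb h2
    ⟨h3, fun g hg => sum_fixed (ker hH) b g hg⟩
  have hM0 : (M : ℝ) ≠ 0 := by
    have : M ≠ 0 := by omega
    exact_mod_cast this
  have h5 : b = (M : ℝ)⁻¹ • ((M • b : Fin n → ℂ)) := by
    rw [← Nat.cast_smul_eq_nsmul ℝ, smul_smul, inv_mul_cancel₀ hM0, one_smul]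
  rw [h5]
  refine Submodule.smul_mem _ _ (Submodule.subset_span ⟨(ker hH).nsmul_mem hbK M, h4⟩)

end Pool.Agent.H896.IR

namespace Pool.Agent.H896.IG

open MvPolynomial Pool.Agent.T2H08.FB Pool.Agent.W594.SYZ2 Pool.Agent.W594.SYZ2.TQ
  Pool.Agent.TH735.AQ
open Pool.Agent.T2H08 Pool.Agent.H896.IQ

variable {n c : ℕ} {r : Fin c → ℕ} {Γ : Subgroup (Trans n r)}
  {ρ : (Fin n → ℂ) → ℂ} {σ : MvPolynomial (Co r) ℂ} {l : Fin c → ℕ} {m : ℕ}

/-- **The pure translations span the kernel.** -/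
theorem pure_span (hΓ : IsIsometryGroup Γ) (hρ : IsRamification Γ ρ σ l)
    {β : (Fin n → ℂ) → MvPolynomial (Co r) ℂ} {k : Fin c → ℕ} (hβ : FQ.IsEffective β k)
    {A : LineBundle Γ} (hA : IsLogPluricanonical A m ρ σ l β k) (hrig : IR.Rigid σ β)
    {HA : (Fin n → ℂ) → (Fin n → ℂ) → ℂ} (hcA : A.IsChernForm HA) (hn : IsNefForm HA)
    (x : Fin n → ℂ) (hx : ∀ w, HA x w = 0) :
    x ∈ Submodule.span ℝ {b | (∀ w, HA b w = 0) ∧ pt r b ∈ Γ} := by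
  obtain ⟨hH, f, hf, hfe⟩ := hcA
  have h1 := IR.pure_span_uq (A := lbf A) (isUQ hΓ) (ram_fac hΓ hρ) hβ (plu_fac hA) hrig hH hf
    (fun g v => hfe g.1 g.2.1 v) hn x hx
  refine Submodule.span_mono ?_ h1
  rintro b ⟨hb, hbm⟩
  exact ⟨hb, hbm.1⟩

end Pool.Agent.H896.IG
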