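import Pool.Agent.H896.CT.Pure
import Pool.Agent.H896.CT.Proj
import Pool.Agent.H896.CT.Stmt

/-!
# The quotient group
-/

set_option autoImplicit false

namespace Pool.Agent.H896.IG

open MvPolynomial Pool.Agent.T2H08.FB Pool.Agent.W594.SYZ2 Pool.Agent.W594.SYZ2.TQ
  Pool.Agent.TH735.AQ
open Pool.Agent.T2H08 Pool.Agent.H896.IQ

variable {n c n' c' : ℕ} {r : Fin c → ℕ} {Γ : Subgroup (Trans n r)} {ι : Fin c' → Fin c}
  {p : (Fin n → ℂ) →ₗ[ℂ] (Fin n' → ℂ)}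

/-- the embedding of the coordinates -/
def emb (ι : Fin c' → Fin c) (s : Co (r ∘ ι)) : Co r := ⟨ι s.1, s.2⟩

theorem emb_injective (hι : Function.Injective ι) : Function.Injective (emb (r := r) ι) := by
  rintro ⟨a, x⟩ ⟨b, y⟩ h
  have h1 : ι a = ι b := congrArg Sigma.fst h
  have h2 := hι h1
  subst h2
  have h3 : (⟨ι a, x⟩ : Co r) = ⟨ι a, y⟩ := h
  rw [Sigma.mk.injEq] at h3
  rw [eq_of_heq h3.2]

/-- the restriction as a linear map -/
def restrictL (ι : Fin c' → Fin c) : (Co r → ℂ) →ₗ[ℂ] (Co (r ∘ ι) → ℂ) where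
  toFun := restrict ι
  map_add' _ _ := rfl
  map_smul' _ _ := rfl

theorem restrict_surjective (hι : Function.Injective ι) :
    Function.Surjective (restrict (r := r) ι) := by
  intro z'
  refine ⟨Function.extend (emb ι) z' 0, funext fun s => ?_⟩
  exact (emb_injective hι).extend_apply z' 0 s

theorem restrict_mulBy (μ : Fin c → ℂˣ) (z : Co r → ℂ) :
    restrict ι (mulBy μ z) = mulBy (μ ∘ ι) (restrict ι z) := rfl

theorem Induces.mul {g h : Trans n r} {g' h' : Trans n' (r ∘ ι)} (hg : Induces p g g')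
    (hh : Induces p h h') : Induces p (g * h) (g' * h') := by
  refine ⟨fun v => ?_, fun z => ?_⟩
  · change onV g' (onV h' (p v)) = p (onV g (onV h v))
    rw [hh.1, hg.1]
  · change onZ g' (onZ h' (restrict ι z)) = restrict ι (onZ g (onZ h z))
    rw [hh.2, hg.2]

theorem Induces.one : Induces p (1 : Trans n r) (1 : Trans n' (r ∘ ι)) :=
  ⟨fun _ => rfl, fun _ => rfl⟩

theorem Induces.inv {g : Trans n r} {g' : Trans n' (r ∘ ι)} (hg : Induces p g g') :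
    Induces p g⁻¹ g'⁻¹ := by
  refine ⟨fun v => ?_, fun z => ?_⟩
  · have h1 := hg.1 (onV g⁻¹ v)
    rw [onV_inv] at h1
    rw [← h1, onV_inv']
  · have h1 := hg.2 (onZ g⁻¹ z)
    rw [onZ_inv] at h1
    rw [← h1, onZ_inv']

theorem Induces.unique (hp : Function.Surjective p) (hι : Function.Injective ι) {g : Trans n r}
    {g' g'' : Trans n' (r ∘ ι)} (h1 : Induces p g g') (h2 : Induces p g g'') : g' = g'' := by
  refine Prod.ext (AffineEquiv.ext fun v' => ?_) (LinearEquiv.ext fun z' => ?_)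
  · obtain ⟨v, rfl⟩ := hp v'
    exact (h1.1 v).trans (h2.1 v).symm
  · obtain ⟨z, rfl⟩ := restrict_surjective hι z'
    exact (h1.2 z).trans (h2.2 z).symm

/-- the group of the induced transformations -/
def quo (Γ : Subgroup (Trans n r)) (ι : Fin c' → Fin c) (p : (Fin n → ℂ) →ₗ[ℂ] (Fin n' → ℂ)) :
    Subgroup (Trans n' (r ∘ ι)) where
  carrier := {g' | ∃ g ∈ Γ, Induces p g g'}
  one_mem' := ⟨1, Γ.one_mem, Induces.one⟩
  mul_mem' := by
    rintro g' h' ⟨g, hg, h1⟩ ⟨h, hh, h2⟩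
    exact ⟨g * h, Γ.mul_mem hg hh, h1.mul h2⟩
  inv_mem' := by
    rintro g' ⟨g, hg, h1⟩
    exact ⟨g⁻¹, Γ.inv_mem hg, h1.inv⟩

/-- the situation -/
structure Sit' (Γ : Subgroup (Trans n r)) (ι : Fin c' → Fin c)
    (p : (Fin n → ℂ) →ₗ[ℂ] (Fin n' → ℂ)) : Prop where
  iso : IsIsometryGroup Γ
  inj : Function.Injective ι
  surj : Function.Surjective p
  le : ∀ v, ∑ i, ‖p v i‖ ^ 2 ≤ ∑ i, ‖v i‖ ^ 2
  dec : ∀ v, ∃ u, p u = 0 ∧ ∑ i, ‖v i - u i‖ ^ 2 = ∑ i, ‖p v i‖ ^ 2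
  pres : ∀ g ∈ Γ, ∀ v, p v = 0 → p (g.1.linear v) = 0
  perm : ∀ g ∈ Γ, ∀ π, Permutes g π → ∀ j, j ∈ Set.range ι ↔ π j ∈ Set.range ι
  pure : ∀ v, p v = 0 → v ∈ Submodule.span ℝ {b | p b = 0 ∧ pt r b ∈ Γ}

theorem onV_sub (g : Trans n r) (v w : Fin n → ℂ) : onV g v - onV g w = g.1.linear (v - w) := by
  rw [map_sub]
  have h3 : onV g v = g.1.linear v + g.1 0 := TQ.act g.1 v
  have h4 : onV g w = g.1.linear w + g.1 0 := TQ.act g.1 w
  rw [h3, h4]
  abel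

theorem Sit'.lin_norm (S : Sit' Γ ι p) {g : Trans n r} (hg : g ∈ Γ) (v : Fin n → ℂ) :
    ∑ i, ‖g.1.linear v i‖ ^ 2 = ∑ i, ‖v i‖ ^ 2 := by
  have h1 := S.iso.isoV g hg v 0
  have h2 : ∀ i, onV g v i - onV g 0 i = g.1.linear v i := by
    intro i
    have h3 := congrFun (onV_sub g v 0) i
    rw [sub_zero] at h3
    exact h3
  rw [Finset.sum_congr rfl fun i _ => by rw [h2 i]] at h1
  rw [h1]
  exact Finset.sum_congr rfl fun i _ => by rw [Pi.zero_apply, sub_zero]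

theorem Sit'.p_le (S : Sit' Γ ι p) {g : Trans n r} (hg : g ∈ Γ) (x : Fin n → ℂ) :
    ∑ i, ‖p (g.1.linear x) i‖ ^ 2 ≤ ∑ i, ‖p x i‖ ^ 2 := by
  obtain ⟨u, hu, hux⟩ := S.dec x
  have h1 : p (g.1.linear x) = p (g.1.linear (x - u)) := by
    rw [map_sub, map_sub, S.pres g hg u hu, sub_zero]
  rw [h1, ← hux]
  refine (S.le _).trans ?_
  rw [S.lin_norm hg]
  rfl

theorem Sit'.p_eq (S : Sit' Γ ι p) {g : Trans n r} (hg : g ∈ Γ) (x : Fin n → ℂ) :
    ∑ i, ‖p (g.1.linear x) i‖ ^ 2 = ∑ i, ‖p x i‖ ^ 2 := by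
  refine le_antisymm (S.p_le hg x) ?_
  have h1 := S.p_le (Γ.inv_mem hg) (g.1.linear x)
  have h2 : (g⁻¹ : Trans n r).1.linear (g.1.linear x) = x := g.1.linear.symm_apply_apply x
  rwa [h2] at h1

theorem Sit'.exists_induced (S : Sit' Γ ι p) {g : Trans n r} (hg : g ∈ Γ) :
    ∃ g' : Trans n' (r ∘ ι), Induces p g g' := by
  have hK : ∀ γ ∈ FQ.GA (conv Γ), ∀ v, p v = 0 → p (γ.linear v) = 0 := by
    intro γ hγ v hv
    obtain ⟨A, hA⟩ := FQ.mem_GA.1 hγ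
    exact S.pres _ hA v hv
  obtain ⟨δ, -, hδ⟩ := exists_Del p S.surj hK g.1 (FQ.mem_GA.2 ⟨g.2, hg⟩)
  have hz : ∀ g ∈ Γ, ∀ z, restrict ι z = 0 → restrict ι (onZ g z) = 0 := by
    intro g hg z hz
    obtain ⟨π, hπ⟩ := S.iso.isoF g hg
    funext s
    obtain ⟨j', i⟩ := s
    change onZ g z ⟨ι j', i⟩ = 0
    have h1 := hπ z (π.symm (ι j'))
    have h2 : π.symm (ι j') ∈ Set.range ι := by
      rw [S.perm g hg π hπ, π.apply_symm_apply]
      exact ⟨j', rfl⟩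
    obtain ⟨j, hj⟩ := h2
    have h3 : ∑ i, ‖z ⟨π.symm (ι j'), i⟩‖ ^ 2 = 0 := by
      rw [← hj]
      refine Finset.sum_eq_zero fun i _ => ?_
      have h4 : z ⟨ι j, i⟩ = 0 := congrFun hz (⟨j, i⟩ : Co (r ∘ ι))
      rw [h4]
      simp
    have h5 : ∑ i, ‖onZ g z ⟨π (π.symm (ι j')), i⟩‖ ^ 2 = ∑ i, ‖onZ g z ⟨ι j', i⟩‖ ^ 2 := by
      rw [π.apply_symm_apply]
    rw [h3, h5] at h1
    have h6 := (Finset.sum_eq_zero_iff_of_nonneg (fun i _ => sq_nonneg _)).1 h1 i (Finset.mem_univ _)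
    exact norm_eq_zero.1 (pow_eq_zero_iff two_ne_zero |>.1 h6)
  obtain ⟨B, hB⟩ := exists_ind (restrictL (r := r) ι) (restrict_surjective S.inj) g.2
    (hz g hg) (hz g⁻¹ (Γ.inv_mem hg))
  exact ⟨(δ, B), hδ, hB⟩

theorem Sit'.cobounded (S : Sit' Γ ι p) : ∃ C : ℝ, 0 ≤ C ∧ ∀ u, p u = 0 →
    ∃ b, p b = 0 ∧ pt r b ∈ Γ ∧ ∑ i, ‖(b + u) i‖ ^ 2 ≤ C := by
  classical
  have : FiniteDimensional ℝ (Fin n → ℂ) := FiniteDimensional.complexToReal _
  let K : Submodule ℂ (Fin n → ℂ) := LinearMap.ker p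
  let SK : AddSubgroup K :=
    { carrier := {b | pt r (b : Fin n → ℂ) ∈ Γ}
      zero_mem' := by
        change pt r (0 : Fin n → ℂ) ∈ Γ
        rw [pt_zero]
        exact Γ.one_mem
      add_mem' := by
        intro a b ha hb
        change pt r ((a : Fin n → ℂ) + (b : Fin n → ℂ)) ∈ Γ
        rw [pt_add]
        exact Γ.mul_mem ha hb
      neg_mem' := by
        intro a ha
        change pt r (-(a : Fin n → ℂ)) ∈ Γ
        rw [pt_neg]
        exact Γ.inv_mem ha }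
  have hmap : (Submodule.span ℝ (SK : Set K)).map (K.subtype.restrictScalars ℝ)
      = Submodule.span ℝ {b | p b = 0 ∧ pt r b ∈ Γ} := by
    rw [Submodule.map_span]
    congr 1
    ext x
    constructor
    · rintro ⟨y, hy, rfl⟩
      exact ⟨y.2, hy⟩
    · rintro ⟨hx, hx0⟩
      exact ⟨⟨x, hx⟩, hx0, rfl⟩
  have hspan : Submodule.span ℝ (SK : Set K) = ⊤ := by
    rw [eq_top_iff]
    rintro ⟨x, hx⟩ -
    have h1 := S.pure x hx
    rw [← hmap] at h1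
    obtain ⟨y, hy, hyx⟩ := h1
    have h2 : y = ⟨x, hx⟩ := Subtype.ext hyx
    rwa [← h2]
  obtain ⟨C, hC⟩ := Pool.Agent.W594.SYZ2.TQ.cobounded SK hspan
  refine ⟨n * C ^ 2, by positivity, fun u hu => ?_⟩
  obtain ⟨b, hb, hbC⟩ := hC ⟨u, hu⟩
  refine ⟨b, b.2, hb, ?_⟩
  have h1 : ‖((b : Fin n → ℂ) + u)‖ ≤ C := hbC
  have h2 : ∀ i, ‖((b : Fin n → ℂ) + u) i‖ ^ 2 ≤ C ^ 2 := by
    intro i
    have h3 := (norm_le_pi_norm ((b : Fin n → ℂ) + u) i).trans h1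
    have h4 := norm_nonneg (((b : Fin n → ℂ) + u) i)
    nlinarith
  refine (Finset.sum_le_sum fun i _ => h2 i).trans ?_
  rw [Finset.sum_const, Finset.card_univ, Fintype.card_fin, nsmul_eq_mul]

/-- **The group of the base is a group of isometries.** -/
theorem Sit'.base (S : Sit' Γ ι p) : IsIsometryGroup (quo Γ ι p) := by
  classical
  refine ⟨fun j => S.iso.pos (ι j), ?_, ?_, ?_, ?_, ?_⟩
  · rintro g' ⟨g, hg, hgg⟩ v' w'
    obtain ⟨v, rfl⟩ := S.surj v'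
    obtain ⟨w, rfl⟩ := S.surj w'
    have h1 : onV g' (p v) - onV g' (p w) = p (g.1.linear (v - w)) := by
      rw [hgg.1, hgg.1, ← map_sub, onV_sub]
    have h2 : ∀ i, onV g' (p v) i - onV g' (p w) i = p (g.1.linear (v - w)) i := fun i =>
      congrFun h1 i
    rw [Finset.sum_congr rfl fun i _ => by rw [h2 i], S.p_eq hg]
    refine Finset.sum_congr rfl fun i _ => ?_
    rw [map_sub]
    rfl
  · rintro g' ⟨g, hg, hgg⟩
    obtain ⟨π, hπ⟩ := S.iso.isoF g hg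
    let e : Fin c' ≃ Set.range ι := Equiv.ofInjective ι S.inj
    let τ : Equiv.Perm (Set.range ι) := π.subtypePerm fun j => (S.perm g hg π hπ j).symm
    let π' : Equiv.Perm (Fin c') := e.trans (τ.trans e.symm)
    have hπ' : ∀ j', ι (π' j') = π (ι j') := by
      intro j'
      have h1 : e (π' j') = τ (e j') := e.apply_symm_apply _
      exact congrArg Subtype.val h1
    refine ⟨π', fun z' j' => ?_⟩
    obtain ⟨z, rfl⟩ := restrict_surjective S.inj z'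
    rw [hgg.2]
    have h1 := hπ z (ι j')
    have h2 : ∑ i, ‖onZ g z ⟨ι (π' j'), i⟩‖ ^ 2 = ∑ i, ‖onZ g z ⟨π (ι j'), i⟩‖ ^ 2 := by
      rw [hπ']
    exact h2.trans h1
  · intro μ' hμ'
    obtain ⟨μ, hμ⟩ : ∃ μ : Fin c → ℂˣ, μ = Function.extend ι μ' 1 := ⟨_, rfl⟩
    have hμι : μ ∘ ι = μ' := by
      funext j'
      rw [hμ]
      exact S.inj.extend_apply μ' 1 j'
    have hμ1 : ∀ j, ‖(μ j : ℂ)‖ = 1 := by
      intro j
      by_cases hj : ∃ j', ι j' = j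
      · obtain ⟨j', rfl⟩ := hj
        have h1 : μ (ι j') = μ' j' := congrFun hμι j'
        rw [h1]
        exact hμ' j'
      · rw [hμ, Function.extend_apply' _ _ _ hj]
        simp
    obtain ⟨g, hg, h1, h2⟩ := S.iso.scalar μ hμ1
    refine ⟨((1, FQ.scal μ') : FQ.Grp n' (r ∘ ι)), ⟨g, hg, fun v => ?_, fun z => ?_⟩,
      fun v => rfl, fun z => rfl⟩
    · rw [h1]
      rfl
    · rw [h2, restrict_mulBy, hμι]
      rfl
  · intro R
    obtain ⟨C, hC0, hC⟩ := S.cobounded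
    obtain ⟨S₀, hS₀, h⟩ := S.iso.discrete (2 * C + 2 * R)
    refine ⟨{h' | ∃ h ∈ S₀, Induces p h h'}, ?_, ?_⟩
    · have h1 : {h' : Trans n' (r ∘ ι) | ∃ h ∈ S₀, Induces p h h'} =
          ⋃ h ∈ S₀, {h' | Induces p h h'} := by
        ext h'
        simp
      rw [h1]
      refine hS₀.biUnion fun h _ => Set.Subsingleton.finite ?_
      intro a ha b hb
      exact Induces.unique S.surj S.inj ha hb
    · rintro g' ⟨g, hg, hgg⟩ hR
      obtain ⟨u, hu, hux⟩ := S.dec (onV g 0)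
      obtain ⟨b, hb, hbΓ, hbC⟩ := hC u hu
      have h1 : onV g' 0 = p (onV g 0) := by
        rw [← hgg.1, map_zero]
      have h2 : ∑ i, ‖onV (pt r b * g) 0 i‖ ^ 2 ≤ 2 * C + 2 * R := by
        have h3 : ∀ i, onV (pt r b * g) 0 i = (b + u) i + (onV g 0 i - u i) := by
          intro i
          change b i + onV g 0 i = b i + u i + (onV g 0 i - u i)
          ring
        have h4 : ∀ i, ‖onV (pt r b * g) 0 i‖ ^ 2 ≤
            2 * ‖(b + u) i‖ ^ 2 + 2 * ‖onV g 0 i - u i‖ ^ 2 := by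
          intro i
          rw [h3]
          have h5 := norm_add_le ((b + u) i) (onV g 0 i - u i)
          have h6 := norm_nonneg ((b + u) i + (onV g 0 i - u i))
          nlinarith [sq_nonneg (‖(b + u) i‖ - ‖onV g 0 i - u i‖)]
        refine (Finset.sum_le_sum fun i _ => h4 i).trans ?_
        rw [Finset.sum_add_distrib, ← Finset.mul_sum, ← Finset.mul_sum, hux, ← h1]
        linarith
      obtain ⟨h₀, hh₀, h3, μ, hμ⟩ := h _ (Γ.mul_mem hbΓ hg) h2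
      have h4 : ∀ v, onV h₀ v = b + onV g v := fun v => (h3 v).symm
      have h5 : ∀ z, onZ g z = mulBy μ (onZ h₀ z) := fun z => hμ z
      refine ⟨((g'.1, FQ.scal (μ ∘ ι)⁻¹ * g'.2) : FQ.Grp n' (r ∘ ι)), ⟨h₀, hh₀, fun v => ?_,
        fun z => ?_⟩, fun v => rfl, μ ∘ ι, fun z => ?_⟩
      · rw [h4, map_add, hb, zero_add]
        exact hgg.1 v
      · change FQ.scal (μ ∘ ι)⁻¹ (onZ g' (restrict ι z)) = _
        rw [hgg.2, h5, restrict_mulBy]
        funext s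
        change (((μ (ι s.1))⁻¹ : ℂˣ) : ℂ) * ((μ (ι s.1) : ℂ) * restrict ι (onZ h₀ z) s) = _
        rw [← mul_assoc, Units.inv_mul, one_mul]
      · change onZ g' z = mulBy (μ ∘ ι) (FQ.scal (μ ∘ ι)⁻¹ (onZ g' z))
        funext s
        change _ = (μ (ι s.1) : ℂ) * ((((μ (ι s.1))⁻¹ : ℂˣ) : ℂ) * onZ g' z s)
        rw [← mul_assoc, Units.mul_inv, one_mul]
  · obtain ⟨R, hR⟩ := S.iso.cocompact
    refine ⟨R, fun v' => ?_⟩
    obtain ⟨v, rfl⟩ := S.surj v'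
    obtain ⟨g, hg, h⟩ := hR v
    obtain ⟨g', hgg⟩ := S.exists_induced hg
    refine ⟨g', ⟨g, hg, hgg⟩, ?_⟩
    have h1 : ∀ i, onV g' 0 i - p v i = p (onV g 0 - v) i := by
      intro i
      have h2 : onV g' 0 = p (onV g 0) := by
        rw [← hgg.1, map_zero]
      rw [h2, map_sub]
      rfl
    rw [Finset.sum_congr rfl fun i _ => by rw [h1 i]]
    exact (S.le _).trans h

theorem Sit'.contraction (S : Sit' Γ ι p) : IsContraction Γ ι (quo Γ ι p) p :=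
  ⟨S.base, S.surj, S.inj, fun _ hg => by
    obtain ⟨g', h⟩ := S.exists_induced hg
    exact ⟨g', ⟨_, hg, h⟩, h⟩, fun _ h => h⟩

end Pool.Agent.H896.IG
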